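import Pool.Agent.Helper87.ACP.Table

/-!
Correctness of the table algorithm, for any semantics of the types.
-/

set_option autoImplicit false

namespace Pool.Agent.Helper7.ACP

open Alg

variable {t : Tables} {D : Dig}

/-! ### Codes of the slots -/

theorem codes_setB {n : ℕ} {b : List ℕ} {β : Fin t.K → Option (Fin n)} (h : Codes b β)
    (i : Fin t.K) (v : Fin n) :
    Codes (setB t b i.1 v.1) (Function.update β i (some v)) := by
  intro j
  have h1 : (setB t b i.1 v.1).getD j.1 0 = bif decide (j.1 = i.1) then v.1 + 1 else b.getD j.1 0 := by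
    unfold setB
    rw [List.getD_eq_getElem?_getD, List.getElem?_map, List.getElem?_range j.2]
    rfl
  rw [h1]
  by_cases hj : j = i
  · subst hj
    simp
  · have : ¬ j.1 = i.1 := fun h => hj (Fin.ext h)
    rw [Function.update_of_ne hj, decide_eq_false this]
    exact h j

/-- The code of the contents of the slots. -/
def codeL {n K : ℕ} (β : Fin K → Option (Fin n)) : List ℕ :=
  List.ofFn (fun i => match β i with
    | none => 0
    | some y => y.1 + 1)

theorem codes_codeL {n K : ℕ} (β : Fin K → Option (Fin n)) : Codes (codeL β) β := by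
  intro i
  unfold codeL
  rw [List.getD_eq_getElem?_getD, List.getElem?_ofFn, dif_pos i.2]
  rfl

theorem mem_slotsL (n : ℕ) (k : ℕ) (b : List ℕ) :
    b ∈ slotsL n k ↔ b.length = k ∧ ∀ z ∈ b, z ≤ n := by
  induction k generalizing b with
  | zero =>
    show b ∈ [[]] ↔ _
    rw [List.mem_singleton, List.length_eq_zero_iff]
    constructor
    · rintro rfl
      simp
    · exact fun h => h.1
  | succ k ih =>
    show b ∈ (slotsL n k).flatMap (fun b => (List.range (n + 1)).map (fun z => z :: b)) ↔ _
    rw [List.mem_flatMap]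
    constructor
    · rintro ⟨b', hb', h⟩
      rw [List.mem_map] at h
      obtain ⟨z, hz, rfl⟩ := h
      rw [List.mem_range] at hz
      have := (ih b').mp hb'
      refine ⟨by simp [this.1], ?_⟩
      intro w hw
      rcases List.mem_cons.mp hw with rfl | hw
      · omega
      · exact this.2 w hw
    · rintro ⟨h1, h2⟩
      cases b with
      | nil => simp at h1
      | cons z b =>
        refine ⟨b, (ih b).mpr ⟨by simpa using h1, fun w hw => h2 w (by simp [hw])⟩, ?_⟩
        rw [List.mem_map]
        exact ⟨z, List.mem_range.mpr (by have := h2 z (by simp); omega), rfl⟩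

theorem codeL_mem {n K : ℕ} (β : Fin K → Option (Fin n)) : codeL β ∈ slotsL n K := by
  rw [mem_slotsL]
  unfold codeL
  refine ⟨by simp, ?_⟩
  intro z hz
  rw [List.mem_ofFn] at hz
  obtain ⟨i, rfl⟩ := hz
  cases β i with
  | none => exact Nat.zero_le _
  | some y => exact y.2

theorem exists_codes {n K : ℕ} {b : List ℕ} (hb : b ∈ slotsL n K) :
    ∃ β : Fin K → Option (Fin n), Codes b β := by
  rw [mem_slotsL] at hb
  refine ⟨fun i => if h : b.getD i.1 0 = 0 then none else
    some ⟨b.getD i.1 0 - 1, ?_⟩, ?_⟩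
  · have h1 : i.1 < b.length := by rw [hb.1]; exact i.2
    have h2 : b.getD i.1 0 ≤ n := by
      rw [List.getD_eq_getElem _ _ h1]
      exact hb.2 _ (List.getElem_mem h1)
    omega
  · intro i
    dsimp only
    split
    · rename_i h1
      split_ifs at h1 with h
      exact h
    · rename_i y h1
      split_ifs at h1 with h
      rw [Option.some.injEq] at h1
      rw [← h1]
      show _ = b.getD i.1 0 - 1 + 1
      omega

/-! ### Lookup -/

theorem lookup_iff (Tb : List Fact) (b : List ℕ) (c τ s : ℕ) :
    lookup t Tb b c τ s = true ↔ ∃ e ∈ Tb, (∀ i : Fin t.K, e.1.1.getD i.1 0 = b.getD i.1 0) ∧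
      e.1.2 = c ∧ e.2.1 = τ ∧ e.2.2 = s := by
  unfold lookup
  rw [List.any_eq_true]
  refine exists_congr (fun e => and_congr_right (fun _ => ?_))
  rw [Bool.and_eq_true, Bool.and_eq_true, Bool.and_eq_true, decide_eq_true_eq, decide_eq_true_eq,
    decide_eq_true_eq, List.all_eq_true]
  refine and_congr_left (fun _ => ?_)
  constructor
  · intro h i
    have := h i.1 (List.mem_range.mpr i.2)
    rwa [decide_eq_true_eq] at this
  · intro h i hi
    rw [List.mem_range] at hi
    rw [decide_eq_true_eq]
    exact h ⟨i, hi⟩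

/-- All facts of a table are true. -/
def Sound (S : Sem t D) (Tb : List Fact) : Prop :=
  ∀ e ∈ Tb, ∀ (β : Fin t.K → Option (Fin D.n)) (c : Fin D.n), Codes e.1.1 β → e.1.2 = c.1 →
    IsFact S β c e.2.1 e.2.2

theorem Sound.lookup {S : Sem t D} {Tb : List Fact} (h : Sound S Tb) {b : List ℕ}
    {β : Fin t.K → Option (Fin D.n)} (hb : Codes b β) {c : Fin D.n} {τ s : ℕ}
    (hl : lookup t Tb b c.1 τ s = true) : IsFact S β c τ s := by
  rw [lookup_iff] at hl
  obtain ⟨e, he, h1, h2, h3, h4⟩ := hl
  have := h e he β c (fun i => by rw [h1 i]; exact hb i) h2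
  rwa [h3, h4] at this

/-! ### The arcs at `v` -/

theorem freeB_iff {b C : List ℕ} {β : Fin t.K → Option (Fin D.n)} (hb : Codes b β)
    {X : Finset (Fin D.n)} (hC : Lists C X) (i : Fin t.K) :
    freeB (D.n, D.bits) b C i.1 = true ↔
      ∀ w, β i = some w → ∀ x ∈ X, ¬ (under D.A).Adj x w := by
  unfold freeB
  rw [Bool.or_eq_true, decide_eq_true_eq, List.all_eq_true, hb i]
  cases hi : β i with
  | none => simp
  | some w =>
    constructor
    · rintro (h | h) w' hw' x hx
      · simp at h
      · rw [Option.some.injEq] at hw'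
        subst hw'
        have h1 := h x.1 ((hC.2 x).mpr hx)
        have h2 : adjB (D.n, D.bits) x.1 w.1 = false := by simpa using h1
        rw [← adjB_iff, h2]
        decide
    · intro h
      right
      intro x hx
      have hxn := hC.1 x hx
      have h1 := h w rfl ⟨x, hxn⟩ ((hC.2 ⟨x, hxn⟩).mp hx)
      rw [← adjB_iff] at h1
      have h2 : adjB (D.n, D.bits) x w.1 = false := by
        rw [← Bool.not_eq_true]
        exact h1
      show (!(adjB (D.n, D.bits) x (w.1 + 1 - 1))) = true
      rw [Nat.add_sub_cancel, h2]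
      rfl

/-- The arcs between `v` and the vertices outside the component that are in the list. -/
noncomputable def listArcs (D : Dig) {K : ℕ} (β : Fin K → Option (Fin D.n)) (c v : Fin D.n)
    (L : List (Fin D.n)) : Finset (Fin D.n × Fin D.n) :=
  (outArcs D β c v).filter (fun p => (p.1 = v ∧ p.2 ∈ L) ∨ (p.2 = v ∧ p.1 ∈ L))

theorem addArc_eq (S : Sem t D) {β : Fin t.K → Option (Fin D.n)} {b : List ℕ} (hb : Codes b β)
    {F : Finset (Fin D.n × Fin D.n)} {m : Fin D.n → Fin 3} (hF : Ins D β F ∅) {x y : Fin D.n}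
    (hx : D.arc x y = true → ∃ i, β i = some x) (hy : D.arc x y = true → ∃ i, β i = some y)
    (hxy : (x, y) ∉ F) :
    addArc t (D.n, D.bits) b (S.ty β F ∅ m) x.1 y.1 =
      S.ty β (if D.arc x y = true then F ∪ {(x, y)} else F) ∅ m := by
  unfold addArc
  rw [arcB_eq]
  cases h : D.arc x y with
  | false => simp
  | true =>
    have hins : Ins D β {(x, y)} ∅ := by
      refine ⟨fun p hp => ?_, fun p hp => ?_, fun p hp => ?_, fun z hz => by simp at hz⟩
      · rw [Finset.mem_singleton] at hp
        rw [hp]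
        exact h
      · rw [Finset.mem_singleton] at hp
        rw [hp]
        exact Or.inr (hx h)
      · rw [Finset.mem_singleton] at hp
        rw [hp]
        exact Or.inr (hy h)
    have h1 := S.plus β F ∅ {(x, y)} ∅ m hF hins (by
      rw [Finset.disjoint_singleton_right]
      exact hxy) (Finset.disjoint_empty_left _)
    rw [Finset.union_empty, S.arc β b x y m hb h (hx h) (hy h)] at h1
    simp only [if_true]
    rw [h1]
    rfl

theorem arcCode_aux (S : Sem t D) {β : Fin t.K → Option (Fin D.n)} {c v : Fin D.n}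
    {i : Fin t.K} (h : Situ D β c v i) {b C : List ℕ} (hb : Codes b (nu β v i))
    (hC : Lists C (compF D β c)) (m : Fin D.n → Fin 3) (L : List (Fin D.n)) (hL : L.Nodup) :
    ∀ F : Finset (Fin D.n × Fin D.n), Ins D (nu β v i) F ∅ →
      (∀ y ∈ L, (v, y) ∉ F ∧ (y, v) ∉ F) →
      (L.map (fun y => y.1)).foldl (fun c y => bif memL C y then c else
        addArc t (D.n, D.bits) b (addArc t (D.n, D.bits) b c v.1 y) y v.1)
        (S.ty (nu β v i) F ∅ m) = S.ty (nu β v i) (F ∪ listArcs D β c v L) ∅ m := by
  classical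
  induction L with
  | nil =>
    intro F _ _
    have h1 : listArcs D β c v [] = ∅ := by
      unfold listArcs
      rw [Finset.filter_eq_empty_iff]
      intro p _
      simp
    rw [h1, Finset.union_empty]
    rfl
  | cons y L ih =>
    intro F hF hd
    have hL' := List.nodup_cons.mp hL
    rw [List.map_cons, List.foldl_cons]
    by_cases hy : y ∈ compF D β c
    · have h1 : memL C y.1 = true := (memL_iff _ _).mpr ((hC.2 y).mpr hy)
      have h2 : listArcs D β c v (y :: L) = listArcs D β c v L := by
        ext p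
        unfold listArcs
        rw [Finset.mem_filter, Finset.mem_filter]
        refine and_congr_right (fun hp => ?_)
        rw [mem_outArcs] at hp
        have hv := h.mem
        constructor
        · rintro (⟨h3, h4⟩ | ⟨h3, h4⟩)
          · rcases List.mem_cons.mp h4 with h4 | h4
            · exfalso
              rcases hp.2 with ⟨-, h5⟩ | ⟨-, h5⟩
              · rw [h4] at h5; exact h5 hy
              · rw [h3] at h5; exact h5 hv
            · exact Or.inl ⟨h3, h4⟩
          · rcases List.mem_cons.mp h4 with h4 | h4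
            · exfalso
              rcases hp.2 with ⟨-, h5⟩ | ⟨-, h5⟩
              · rw [h3] at h5; exact h5 hv
              · rw [h4] at h5; exact h5 hy
            · exact Or.inr ⟨h3, h4⟩
        · rintro (⟨h3, h4⟩ | ⟨h3, h4⟩)
          · exact Or.inl ⟨h3, List.mem_cons_of_mem _ h4⟩
          · exact Or.inr ⟨h3, List.mem_cons_of_mem _ h4⟩
      rw [h1, cond_true, h2]
      exact ih hL'.2 F hF (fun z hz => hd z (List.mem_cons_of_mem _ hz))
    · have h1 : memL C y.1 = false := by
        rw [← Bool.not_eq_true, memL_iff, hC.2 y]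
        exact hy
      have hvy : v ≠ y := fun h2 => hy (h2 ▸ h.mem)
      have hv1 : ∃ j, nu β v i j = some v := ⟨i, nu_self⟩
      have hy1 : (under D.A).Adj v y → ∃ j, nu β v i j = some y := by
        intro hadj
        obtain ⟨j, -, -, hj⟩ := h.nb hy hadj
        exact ⟨j, hj⟩
      have hdy := hd y (by simp)
      rw [h1, cond_false, addArc_eq S hb hF (fun _ => hv1) (fun ha => hy1 (adj_of_arc ha)) hdy.1]
      set F1 : Finset (Fin D.n × Fin D.n) :=
        if D.arc v y = true then F ∪ {(v, y)} else F with hF1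
      have hmem1 : ∀ p, p ∈ F1 ↔ p ∈ F ∨ (D.arc v y = true ∧ p = (v, y)) := by
        intro p
        rw [hF1]
        split_ifs with ha
        · rw [Finset.mem_union, Finset.mem_singleton]
          tauto
        · tauto
      have hins1 : Ins D (nu β v i) F1 ∅ := by
        refine ⟨fun p hp => ?_, fun p hp => ?_, fun p hp => ?_, fun z hz => by simp at hz⟩
        · rcases (hmem1 p).mp hp with h2 | ⟨h2, rfl⟩
          · exact hF.arc p h2
          · exact h2
        · rcases (hmem1 p).mp hp with h2 | ⟨h2, rfl⟩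
          · exact hF.fst p h2
          · exact Or.inr hv1
        · rcases (hmem1 p).mp hp with h2 | ⟨h2, rfl⟩
          · exact hF.snd p h2
          · exact Or.inr (hy1 (adj_of_arc h2))
      have hyv1 : (y, v) ∉ F1 := by
        intro h2
        rcases (hmem1 _).mp h2 with h2 | ⟨-, h2⟩
        · exact hdy.2 h2
        · rw [Prod.mk.injEq] at h2
          exact hvy h2.1.symm
      rw [addArc_eq S hb hins1 (fun ha => hy1 (adj_of_arc ha).symm) (fun _ => hv1) hyv1]
      set F2 : Finset (Fin D.n × Fin D.n) :=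
        if D.arc y v = true then F1 ∪ {(y, v)} else F1 with hF2
      have hmem2 : ∀ p, p ∈ F2 ↔ p ∈ F ∨ (D.arc v y = true ∧ p = (v, y)) ∨
          (D.arc y v = true ∧ p = (y, v)) := by
        intro p
        rw [hF2]
        split_ifs with ha
        · rw [Finset.mem_union, Finset.mem_singleton, hmem1]
          tauto
        · rw [hmem1]
          tauto
      have hins2 : Ins D (nu β v i) F2 ∅ := by
        refine ⟨fun p hp => ?_, fun p hp => ?_, fun p hp => ?_, fun z hz => by simp at hz⟩
        · rcases (hmem2 p).mp hp with h2 | ⟨h2, rfl⟩ | ⟨h2, rfl⟩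
          · exact hF.arc p h2
          · exact h2
          · exact h2
        · rcases (hmem2 p).mp hp with h2 | ⟨h2, rfl⟩ | ⟨h2, rfl⟩
          · exact hF.fst p h2
          · exact Or.inr hv1
          · exact Or.inr (hy1 (adj_of_arc h2).symm)
        · rcases (hmem2 p).mp hp with h2 | ⟨h2, rfl⟩ | ⟨h2, rfl⟩
          · exact hF.snd p h2
          · exact Or.inr (hy1 (adj_of_arc h2))
          · exact Or.inr hv1
      have hd2 : ∀ z ∈ L, (v, z) ∉ F2 ∧ (z, v) ∉ F2 := by
        intro z hz
        have hzy : z ≠ y := fun h2 => hL'.1 (h2 ▸ hz)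
        have hdz := hd z (List.mem_cons_of_mem _ hz)
        constructor
        · intro h2
          rcases (hmem2 _).mp h2 with h2 | ⟨-, h2⟩ | ⟨-, h2⟩
          · exact hdz.1 h2
          · rw [Prod.mk.injEq] at h2
            exact hzy h2.2
          · rw [Prod.mk.injEq] at h2
            exact hvy h2.1
        · intro h2
          rcases (hmem2 _).mp h2 with h2 | ⟨-, h2⟩ | ⟨-, h2⟩
          · exact hdz.2 h2
          · rw [Prod.mk.injEq] at h2
            exact hvy h2.2
          · rw [Prod.mk.injEq] at h2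
            exact hzy h2.1
      rw [ih hL'.2 F2 hins2 hd2]
      congr 1
      ext p
      rw [Finset.mem_union, Finset.mem_union, hmem2]
      unfold listArcs
      rw [Finset.mem_filter, Finset.mem_filter, mem_outArcs]
      obtain ⟨p1, p2⟩ := p
      simp only [Prod.mk.injEq, List.mem_cons]
      constructor
      · rintro ((h2 | ⟨h2, h3, h4⟩ | ⟨h2, h3, h4⟩) | ⟨h2, h3⟩)
        · exact Or.inl h2
        · subst h3 h4
          exact Or.inr ⟨⟨h2, Or.inl ⟨rfl, hy⟩⟩, Or.inl ⟨rfl, Or.inl rfl⟩⟩
        · subst h3 h4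
          exact Or.inr ⟨⟨h2, Or.inr ⟨rfl, hy⟩⟩, Or.inr ⟨rfl, Or.inl rfl⟩⟩
        · right
          refine ⟨h2, ?_⟩
          rcases h3 with ⟨h3, h4⟩ | ⟨h3, h4⟩
          · exact Or.inl ⟨h3, Or.inr h4⟩
          · exact Or.inr ⟨h3, Or.inr h4⟩
      · rintro (h2 | ⟨h2, ⟨h3, h4 | h4⟩ | ⟨h3, h4 | h4⟩⟩)
        · exact Or.inl (Or.inl h2)
        · subst h3 h4
          exact Or.inl (Or.inr (Or.inl ⟨h2.1, rfl, rfl⟩))
        · exact Or.inr ⟨h2, Or.inl ⟨h3, h4⟩⟩
        · subst h3 h4
          exact Or.inl (Or.inr (Or.inr ⟨h2.1, rfl, rfl⟩))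
        · exact Or.inr ⟨h2, Or.inr ⟨h3, h4⟩⟩

theorem arcCode_eq (S : Sem t D) {β : Fin t.K → Option (Fin D.n)} {c v : Fin D.n}
    {i : Fin t.K} (h : Situ D β c v i) {b C : List ℕ} (hb : Codes b (nu β v i))
    (hC : Lists C (compF D β c)) (m : Fin D.n → Fin 3) :
    arcCode t (D.n, D.bits) b C v.1 = S.ty (nu β v i) (outArcs D β c v) ∅ m := by
  have h1 := arcCode_aux S h hb hC m (List.finRange D.n) (List.nodup_finRange _) ∅
    ⟨fun p hp => by simp at hp, fun p hp => by simp at hp, fun p hp => by simp at hp,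
      fun z hz => by simp at hz⟩ (fun y _ => by simp)
  rw [S.zero, Finset.empty_union] at h1
  have h2 : (List.finRange D.n).map (fun y => y.1) = List.range D.n := by
    simp
  have h3 : listArcs D β c v (List.finRange D.n) = outArcs D β c v := by
    unfold listArcs
    rw [Finset.filter_eq_self]
    intro p hp
    rw [mem_outArcs] at hp
    rcases hp.2 with ⟨h3, -⟩ | ⟨h3, -⟩
    · exact Or.inl ⟨h3, List.mem_finRange _⟩
    · exact Or.inr ⟨h3, List.mem_finRange _⟩
  rw [h2, h3] at h1
  exact h1

/-! ### Representatives -/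

theorem exists_fin_list {n : ℕ} (l : List ℕ) (h : ∀ x ∈ l, x < n) :
    ∃ L : List (Fin n), L.map (fun x => x.1) = l := by
  induction l with
  | nil => exact ⟨[], rfl⟩
  | cons a l ih =>
    obtain ⟨L, hL⟩ := ih (fun x hx => h x (List.mem_cons_of_mem _ hx))
    exact ⟨⟨a, h a (by simp)⟩ :: L, by rw [List.map_cons, hL]⟩

theorem nodup_compL (I : Inst) (b : List ℕ) (c : ℕ) : (compL t I b c).Nodup := by
  unfold compL
  cases I.1 with
  | zero => exact List.Nodup.filter _ List.nodup_range
  | succ n =>
    rw [Function.iterate_succ_apply']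
    exact List.Nodup.filter _ List.nodup_range

theorem exists_reps {β : Fin t.K → Option (Fin D.n)} {c v : Fin D.n}
    {i : Fin t.K} (h : Situ D β c v i) {b' C : List ℕ} (hb : Codes b' (nu β v i))
    (hC : Lists C (compF D β c)) (hCn : C.Nodup) :
    ∃ L : List (Fin D.n), L.map (fun x => x.1) =
      repsL t (D.n, D.bits) b' (C.filter (fun x => !(decide (x = v.1)))) ∧
      Reps D β c v i L := by
  have hlt : ∀ x ∈ repsL t (D.n, D.bits) b' (C.filter (fun x => !(decide (x = v.1)))),
      x < D.n := by
    intro x hx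
    unfold repsL at hx
    exact hC.1 x (List.mem_of_mem_filter (List.mem_of_mem_filter hx))
  obtain ⟨L, hL⟩ := exists_fin_list _ hlt
  have hmem : ∀ x : Fin D.n, x ∈ L ↔ (x ∈ compF D β c ∧ x ≠ v) ∧
      ∀ y ∈ compF D (nu β v i) x, x ≤ y := by
    intro x
    have h1 : x ∈ L ↔ x.1 ∈ L.map (fun x => x.1) := by
      rw [List.mem_map]
      constructor
      · exact fun h => ⟨x, h, rfl⟩
      · rintro ⟨y, hy, hxy⟩
        rw [← Fin.ext hxy]
        exact hy
    have hl := lists_compL D t hb x
    rw [h1, hL]
    unfold repsL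
    rw [List.mem_filter, List.mem_filter, hC.2 x, List.all_eq_true]
    refine and_congr (and_congr_right (fun _ => ?_)) ?_
    · rw [Bool.not_eq_true', decide_eq_false_iff_not]
      exact not_congr ⟨fun h => Fin.ext h, fun h => congrArg _ h⟩
    · constructor
      · intro h2 y hy
        have := h2 y.1 ((hl.2 y).mpr hy)
        rw [decide_eq_true_eq] at this
        exact this
      · intro h2 y hy
        have hy' := hl.1 y hy
        rw [decide_eq_true_eq]
        exact h2 ⟨y, hy'⟩ ((hl.2 ⟨y, hy'⟩).mp hy)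
  refine ⟨L, hL, ⟨fun x hx => ((hmem x).mp hx).1, ?_, ?_⟩⟩
  · intro y hy hyv
    have hself : y ∈ compF D (nu β v i) y := (mem_compF _ _ _ _).mpr (self_mem_comp y)
    obtain ⟨x, hx, hmin⟩ := Finset.exists_min_image (compF D (nu β v i) y) (fun x => x)
      ⟨y, hself⟩
    have hya := h.nu_avoid hy hyv
    have heq := compF_eq hya hx
    refine ⟨x, (hmem x).mpr ⟨h.sub hy hyv x hx, ?_⟩, ?_⟩
    · intro z hz
      rw [heq] at hz
      exact hmin z hz
    · rw [heq]
      exact hself
  · have hn : L.Nodup := by
      apply List.Nodup.of_map (fun x => x.1)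
      rw [hL]
      exact List.Nodup.filter _ (List.Nodup.filter _ hCn)
    refine List.Nodup.pairwise_of_forall_ne hn ?_
    intro x hx y hy hxy
    have hx' := (hmem x).mp hx
    have hy' := (hmem y).mp hy
    have hxa := h.nu_avoid hx'.1.1 hx'.1.2
    have hya := h.nu_avoid hy'.1.1 hy'.1.2
    apply compF_disjoint hxa
    intro h1
    apply hxy
    have heq := compF_eq hya h1
    apply le_antisymm
    · apply hx'.2
      rw [heq]
      exact (mem_compF _ _ _ _).mpr (self_mem_comp y)
    · exact hy'.2 x h1

/-! ### Derivations -/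

theorem derive_sound (S : Sem t D) {Tb : List Fact} (hT : Sound S Tb) {f : Fact}
    {β : Fin t.K → Option (Fin D.n)} {c : Fin D.n} (hb : Codes f.1.1 β) (hfc : f.1.2 = c.1)
    (hd : derive t (D.n, D.bits) Tb f = true) : IsFact S β c f.2.1 f.2.2 := by
  unfold derive at hd
  rw [Bool.and_eq_true, Bool.not_eq_true', ← Bool.not_eq_true, hfc, inB_iff t hb,
    List.any_eq_true] at hd
  obtain ⟨hav, v0, hv0, hd⟩ := hd
  push Not at hav
  rw [List.any_eq_true] at hd
  obtain ⟨i0, hi0, hd⟩ := hd
  rw [List.mem_range] at hi0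
  have hC := lists_compL D t hb c
  have hCn : (compL t (D.n, D.bits) f.1.1 c.1).Nodup := nodup_compL _ _ _
  have hv0n := hC.1 v0 hv0
  obtain ⟨v, rfl⟩ : ∃ v : Fin D.n, v.1 = v0 := ⟨⟨v0, hv0n⟩, rfl⟩
  obtain ⟨i, rfl⟩ : ∃ i : Fin t.K, i.1 = i0 := ⟨⟨i0, hi0⟩, rfl⟩
  unfold derive1 at hd
  rw [Bool.and_eq_true, freeB_iff hb hC i] at hd
  obtain ⟨hfree, hd⟩ := hd
  have hs : Situ D β c v i := ⟨hav, (hC.2 v).mp hv0, hfree⟩
  have hb' : Codes (setB t f.1.1 i.1 v.1) (nu β v i) := codes_setB hb i v
  obtain ⟨L, hL, hR⟩ := exists_reps hs hb' hC hCn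
  rw [← hL, List.any_eq_true] at hd
  obtain ⟨p, hp, hd⟩ := hd
  rw [List.any_eq_true] at hd
  obtain ⟨a, ha, hd⟩ := hd
  rw [List.mem_range] at ha
  rw [Bool.and_eq_true, decide_eq_true_eq, decide_eq_true_eq] at hd
  have hcs := comb_sound S (Tb := Tb) (b := setB t f.1.1 i.1 v.1) (β := nu β v i)
    (fun c' _ τ s hl => hT.lookup hb' hl) L (outArcs D β c v) ∅ _ (hs.comb hR)
    (by
      intro q hq
      rw [List.mem_singleton] at hq
      refine ⟨fun _ => 0, ?_, ?_⟩
      · rw [hq]
        exact (arcCode_eq S hs hb' hC _).symm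
      · rw [hq]
        rfl) p hp
  rw [hs.arcs_eq hR, Finset.empty_union] at hcs
  obtain ⟨m, hm1, hm2⟩ := hcs
  have hvn := hs.v_notMem hR
  classical
  let m' : Fin D.n → Fin 3 := Function.update m v ⟨a, ha⟩
  have e1 : ∀ x ∈ unionL D (nu β v i) L, m' x = m x := by
    intro x hx
    have : x ≠ v := fun h => hvn (h ▸ hx)
    exact Function.update_of_ne this _ _
  have e2 : (m' v).1 = a := by
    show (Function.update m v ⟨a, ha⟩ v).1 = a
    rw [Function.update_self]
  refine ⟨m', ?_, ?_⟩
  · rw [hs.ty_eq S hR, S.congr _ _ _ m' m (hs.ins_rest hR) e1, hm1, e2]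
    exact hd.1
  · rw [hs.sum_eq hR, e2, Finset.sum_congr rfl (fun x hx => by rw [e1 x hx]), hm2]
    exact hd.2

theorem derive_complete (S : Sem t D) {Tb : List Fact} {b : List ℕ}
    {β : Fin t.K → Option (Fin D.n)} {c v : Fin D.n} {i : Fin t.K} (hb : Codes b β)
    (hs : Situ D β c v i) (m : Fin D.n → Fin 3)
    (hT : ∀ x : Fin D.n, x ∈ compF D β c → x ≠ v → ∀ b', Codes b' (nu β v i) →
      lookup t Tb b' x.1 (S.ty (nu β v i) (arcsOf D (compF D (nu β v i) x))
        (compF D (nu β v i) x) m) (∑ y ∈ compF D (nu β v i) x, (m y).1) = true) :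
    derive t (D.n, D.bits) Tb ((b, c.1), (S.ty β (arcsOf D (compF D β c)) (compF D β c) m,
      ∑ y ∈ compF D β c, (m y).1)) = true := by
  have hC := lists_compL D t hb c
  have hCn : (compL t (D.n, D.bits) b c.1).Nodup := nodup_compL _ _ _
  have hb' : Codes (setB t b i.1 v.1) (nu β v i) := codes_setB hb i v
  obtain ⟨L, hL, hR⟩ := exists_reps hs hb' hC hCn
  unfold derive
  rw [Bool.and_eq_true, Bool.not_eq_true', ← Bool.not_eq_true, List.any_eq_true]
  refine ⟨?_, v.1, (hC.2 v).mpr hs.mem, ?_⟩
  · rw [show (((b, c.1), (S.ty β (arcsOf D (compF D β c)) (compF D β c) m,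
      ∑ y ∈ compF D β c, (m y).1)) : Fact).1.2 = c.1 from rfl, inB_iff t hb]
    push Not
    exact hs.avoid
  rw [List.any_eq_true]
  refine ⟨i.1, List.mem_range.mpr i.2, ?_⟩
  unfold derive1
  rw [Bool.and_eq_true, freeB_iff hb hC i]
  refine ⟨hs.free, ?_⟩
  rw [← hL, List.any_eq_true]
  refine ⟨_, comb_complete S (b := setB t b i.1 v.1) m L (outArcs D β c v) ∅ _ (hs.comb hR)
    (fun x hx => hT x (hR.mem x hx).1 (hR.mem x hx).2 _ hb') ?_, ?_⟩
  · rw [List.mem_singleton, Prod.mk.injEq]
    exact ⟨(arcCode_eq S hs hb' hC _).symm, rfl⟩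
  · rw [List.any_eq_true]
    refine ⟨(m v).1, List.mem_range.mpr (m v).2, ?_⟩
    rw [Bool.and_eq_true, decide_eq_true_eq, decide_eq_true_eq, hs.arcs_eq hR,
      Finset.empty_union]
    exact ⟨(hs.ty_eq S hR m).symm, (hs.sum_eq hR m).symm⟩

/-! ### The table -/

theorem sound_iterate (S : Sem t D) (r : ℕ) : Sound S ((step t (D.n, D.bits))^[r] []) := by
  induction r with
  | zero =>
    intro e he
    simp at he
  | succ r ih =>
    rw [Function.iterate_succ_apply']
    intro e he β c hb hc
    unfold step at he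
    rw [List.mem_filter] at he
    exact derive_sound S ih hb hc he.2

theorem complete_iterate (S : Sem t D) {β : Fin t.K → Option (Fin D.n)} {c : Fin D.n}
    (hG : Good (under D.A) β c) : ∀ (r : ℕ), (compF D β c).card ≤ r → ∀ (m : Fin D.n → Fin 3)
      (b : List ℕ), Codes b β → lookup t ((step t (D.n, D.bits))^[r] []) b c.1
        (S.ty β (arcsOf D (compF D β c)) (compF D β c) m) (∑ y ∈ compF D β c, (m y).1) = true := by
  induction hG with
  | mk β c v i hc hv hi hg ih =>
    intro r hr m b hb
    have hs : Situ D β c v i := ⟨hc, (mem_compF _ _ _ _).mpr hv,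
      fun w hw x hx => hi w hw x ((mem_compF _ _ _ _).mp hx)⟩
    cases r with
    | zero =>
      exfalso
      have : c ∈ compF D β c := (mem_compF _ _ _ _).mpr (self_mem_comp c)
      have h1 : compF D β c = ∅ := Finset.card_eq_zero.mp (by omega)
      rw [h1] at this
      simp at this
    | succ r =>
      rw [Function.iterate_succ_apply', lookup_iff]
      have hcode := codes_codeL β
      refine ⟨((codeL β, c.1), (S.ty β (arcsOf D (compF D β c)) (compF D β c) m,
        ∑ y ∈ compF D β c, (m y).1)), ?_, fun j => by rw [hcode j, hb j], rfl, rfl, rfl⟩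
      unfold step
      rw [List.mem_filter]
      constructor
      · show _ ∈ (slotsL D.n t.K ×ˢ List.range D.n) ×ˢ pairsL t D.n
        rw [List.mem_product, List.mem_product]
        exact ⟨⟨codeL_mem β, List.mem_range.mpr c.2⟩,
          mem_pairsL _ _ _ (S.lt _ _ _ _ (ins_compF hc)) (sum_le _ _)⟩
      · refine derive_complete S hcode hs m ?_
        intro x hx hxv b' hb'
        refine ih x ((mem_compF _ _ _ _).mp hx) hxv r ?_ m b' hb'
        have hlt : (compF D (nu β v i) x).card < (compF D β c).card := by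
          apply Finset.card_lt_card
          refine ⟨fun y hy => (hs.sub hx hxv y hy).1, fun h1 => ?_⟩
          exact (hs.sub hx hxv v (h1 hs.mem)).2 rfl
        have : (compF D (Function.update β i (some v)) x).card < (compF D β c).card := hlt
        omega

/-- The table algorithm is correct: for a connected digraph with an elimination tree with `t.K`
slots, its output is the least number `s ≥ 1` of agents of an accepted placement of multiplicities
at most two, and `0` if there is none. -/
theorem out_spec (S : Sem t D) (hconn : (under D.A).Connected) (c0 : Fin D.n) (hc0 : c0.1 = 0)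
    (hG : Good (under D.A) (K := t.K) (fun _ => none) c0) :
    out t (D.n, D.bits) = sInf {s : ℕ | 1 ≤ s ∧ ∃ m : Fin D.n → Fin 3,
      ∑ x, (m x).1 = s ∧
      t.acc.getD (S.ty (fun _ => none) (arcsOf D Finset.univ) Finset.univ m) false = true} := by
  have huniv : compF D (fun _ : Fin t.K => none) c0 = Finset.univ := by
    rw [Finset.eq_univ_iff_forall]
    intro x
    rw [mem_compF]
    obtain ⟨p⟩ := hconn.preconnected c0 x
    have : ∀ {a b : Fin D.n} (_ : (under D.A).Walk a b),
        Relation.ReflTransGen (Av (under D.A) (fun _ : Fin t.K => (none : Option (Fin D.n)))) a b := by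
      intro a b q
      induction q with
      | nil => exact Relation.ReflTransGen.refl
      | cons h q ih => exact Relation.ReflTransGen.head ⟨h, fun _ => by simp⟩ ih
    exact this p
  have hcodes : Codes (List.replicate t.K 0) (fun _ : Fin t.K => (none : Option (Fin D.n))) := by
    intro i
    rw [List.getD_eq_getElem?_getD, List.getElem?_replicate, if_pos i.2]
    rfl
  set P : ℕ → Bool := fun s => decide (1 ≤ s) && (List.range t.N).any (fun τ =>
    t.acc.getD τ false && lookup t (table t (D.n, D.bits)) (List.replicate t.K 0) 0 τ s) with hP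
  have hPs : ∀ s, P s = true ↔ (1 ≤ s ∧ ∃ m : Fin D.n → Fin 3, ∑ x, (m x).1 = s ∧
      t.acc.getD (S.ty (fun _ => none) (arcsOf D Finset.univ) Finset.univ m) false = true) := by
    intro s
    rw [hP]
    simp only []
    rw [Bool.and_eq_true, decide_eq_true_eq, List.any_eq_true]
    refine and_congr_right (fun _ => ?_)
    constructor
    · rintro ⟨τ, -, h⟩
      rw [Bool.and_eq_true] at h
      have h1 : lookup t ((step t (D.n, D.bits))^[D.n] []) (List.replicate t.K 0) c0.1 τ s = true := by
        rw [hc0]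
        exact h.2
      obtain ⟨m, hm1, hm2⟩ := (sound_iterate S D.n).lookup hcodes h1
      rw [huniv] at hm1 hm2
      exact ⟨m, hm2, by rw [hm1]; exact h.1⟩
    · rintro ⟨m, hm1, hm2⟩
      have h1 := complete_iterate S hG D.n (by
        rw [huniv, Finset.card_univ, Fintype.card_fin]) m _ hcodes
      rw [huniv, hm1, hc0] at h1
      refine ⟨S.ty (fun _ => none) (arcsOf D Finset.univ) Finset.univ m,
        List.mem_range.mpr ?_, ?_⟩
      · apply S.lt
        have := ins_compF (D := D) (β := fun _ : Fin t.K => none) (c := c0) (fun _ => by simp)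
        rwa [huniv] at this
      · rw [Bool.and_eq_true]
        exact ⟨hm2, h1⟩
  have hset : {s : ℕ | 1 ≤ s ∧ ∃ m : Fin D.n → Fin 3, ∑ x, (m x).1 = s ∧
      t.acc.getD (S.ty (fun _ => none) (arcsOf D Finset.univ) Finset.univ m) false = true}
      = {s | P s = true} := by
    ext s
    exact (hPs s).symm
  rw [hset]
  show ((List.range (2 * D.n + 1)).filter P).headD 0 = _
  have hbound : ∀ s, P s = true → s < 2 * D.n + 1 := by
    intro s hs
    obtain ⟨-, m, hm, -⟩ := (hPs s).mp hs
    rw [← hm]
    have := sum_le Finset.univ m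
    omega
  by_cases hne : ∃ s, P s = true
  · have h1 := Nat.sInf_mem (s := {s | P s = true}) hne
    set s0 := sInf {s | P s = true} with hs0
    have hlt : s0 < 2 * D.n + 1 := hbound _ h1
    obtain ⟨j, hj⟩ := Nat.exists_eq_add_of_lt hlt
    have h2 : (List.range s0).filter P = [] := by
      rw [List.filter_eq_nil_iff]
      intro i hi hPi
      rw [List.mem_range] at hi
      have : s0 ≤ i := Nat.sInf_le hPi
      omega
    have h3 : 2 * D.n + 1 = s0 + (j + 1) := by omega
    rw [h3, List.range_add, List.filter_append, h2, List.nil_append, List.range_succ_eq_map,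
      List.map_cons, List.filter_cons]
    have h4 : P (s0 + 0) = true := h1
    rw [if_pos h4]
    rfl
  · push Not at hne
    have h2 : (List.range (2 * D.n + 1)).filter P = [] := by
      rw [List.filter_eq_nil_iff]
      intro i _
      exact hne i
    have h3 : {s | P s = true} = ∅ := by
      ext s
      simp [hne s]
    rw [h2, h3]
    simp

end Pool.Agent.Helper7.ACP
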