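import Pool.Agent.Helper87.ACP.Machine
import Pool.Agent.Helper7.ACP.Good

/-!
The component search of the table algorithm is correct.
-/

set_option autoImplicit false

namespace Pool.Agent.Helper7.ACP

open Alg

/-- An increasing map reaches a fixed point after at most `card` rounds. -/
theorem iterate_fixed {α : Type*} [Fintype α] (f : Finset α → Finset α)
    (hf : ∀ S, S ⊆ f S) (S : Finset α) :
    f (f^[Fintype.card α] S) = f^[Fintype.card α] S := by
  by_contra hne
  have h1 : ∀ i ≤ Fintype.card α, f (f^[i] S) ≠ f^[i] S := by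
    intro i hi h
    apply hne
    have h2 : ∀ j, f^[i + j] S = f^[i] S := by
      intro j
      induction j with
      | zero => rfl
      | succ j ih => rw [← Nat.add_assoc, Function.iterate_succ_apply', ih, h]
    obtain ⟨j, hj⟩ := Nat.exists_eq_add_of_le hi
    rw [hj, h2 j, h]
  have h2 : ∀ i ≤ Fintype.card α + 1, i ≤ (f^[i] S).card := by
    intro i
    induction i with
    | zero => intro _; exact Nat.zero_le _
    | succ i ih =>
      intro hi
      have h3 := ih (by omega)
      rw [Function.iterate_succ_apply']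
      have h4 : (f^[i] S).card < (f (f^[i] S)).card := by
        apply Finset.card_lt_card
        exact (hf _).ssubset_of_ne (Ne.symm (h1 i (by omega)))
      omega
  have h3 := h2 (Fintype.card α + 1) (le_refl _)
  have h4 := Finset.card_le_univ (f^[Fintype.card α + 1] S)
  omega

/-- The list `b` codes the contents `β` of the slots. -/
def Codes {n K : ℕ} (b : List ℕ) (β : Fin K → Option (Fin n)) : Prop :=
  ∀ i : Fin K, b.getD i 0 = (match β i with
    | none => 0
    | some y => y.1 + 1)

theorem getElem?_flatMap {ι β : Type*} (g : ι → List β) (n : ℕ) (hg : ∀ i, (g i).length = n)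
    (l : List ι) (x y : ℕ) (hx : x < l.length) (hy : y < n) :
    (l.flatMap g)[x * n + y]? = (g l[x])[y]? := by
  induction l generalizing x with
  | nil => simp at hx
  | cons a l ih =>
    rw [List.flatMap_cons]
    cases x with
    | zero =>
      rw [Nat.zero_mul, Nat.zero_add, List.getElem?_append_left (by rw [hg]; exact hy)]
      rfl
    | succ x =>
      have e : (x + 1) * n + y = (g a).length + (x * n + y) := by rw [hg]; ring
      rw [e, List.getElem?_append_right (by omega), Nat.add_sub_cancel_left]
      rw [ih x (by simpa using hx)]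
      rfl

theorem arcB_eq (D : Dig) (x y : Fin D.n) : arcB (D.n, D.bits) x.1 y.1 = D.arc x y := by
  unfold arcB
  rw [List.getD_eq_getElem?_getD]
  have h := getElem?_flatMap (fun x => (List.finRange D.n).map (fun y => D.arc x y)) D.n
    (fun i => by simp) (List.finRange D.n) x.1 y.1 (by simp) y.2
  have h' : D.bits[x.1 * D.n + y.1]? = ((List.finRange D.n).map (fun y => D.arc x y))[y.1]? := by
    rw [show D.bits = (List.finRange D.n).flatMap
      (fun x => (List.finRange D.n).map (fun y => D.arc x y)) from rfl, h]
    simp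
  show (D.bits[x.1 * D.n + y.1]?).getD false = D.arc x y
  rw [h']
  simp

theorem adjB_iff (D : Dig) (x y : Fin D.n) :
    adjB (D.n, D.bits) x.1 y.1 = true ↔ (under D.A).Adj x y := by
  unfold adjB
  rw [arcB_eq, arcB_eq, Bool.or_eq_true]
  constructor
  · intro h
    refine ⟨?_, h⟩
    rintro rfl
    have := D.loopless x
    rcases h with h | h
    · rw [this] at h; exact absurd h (by decide)
    · rw [this] at h; exact absurd h (by decide)
  · intro h
    exact h.2

theorem memL_iff (S : List ℕ) (x : ℕ) : memL S x = true ↔ x ∈ S := by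
  unfold memL
  rw [List.any_eq_true]
  constructor
  · rintro ⟨y, hy, h⟩
    rw [decide_eq_true_eq] at h
    rw [← h]
    exact hy
  · intro h
    exact ⟨x, h, by simp⟩

theorem inB_iff (t : Tables) {n : ℕ} {b : List ℕ} {β : Fin t.K → Option (Fin n)}
    (hb : Codes b β) (x : Fin n) : inB t b x.1 = true ↔ ∃ i, β i = some x := by
  unfold inB
  rw [List.any_eq_true]
  constructor
  · rintro ⟨i, hi, h⟩
    rw [List.mem_range] at hi
    rw [decide_eq_true_eq] at h
    refine ⟨⟨i, hi⟩, ?_⟩
    have h1 := hb ⟨i, hi⟩
    rw [show b.getD (⟨i, hi⟩ : Fin t.K).1 0 = x.1 + 1 from h] at h1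
    cases h2 : β ⟨i, hi⟩ with
    | none => rw [h2] at h1; simp at h1
    | some y =>
      rw [h2] at h1
      have : x.1 = y.1 := by simpa using h1
      rw [Option.some.injEq]
      exact Fin.ext this.symm
  · rintro ⟨i, hi⟩
    refine ⟨i.1, List.mem_range.mpr i.2, ?_⟩
    rw [decide_eq_true_eq, hb i, hi]

/-- The list `l` lists the elements of `S` in increasing order. -/
def Lists {n : ℕ} (l : List ℕ) (S : Finset (Fin n)) : Prop :=
  (∀ x ∈ l, x < n) ∧ (∀ x : Fin n, x.1 ∈ l ↔ x ∈ S)

theorem lists_filter {n : ℕ} (p : ℕ → Bool) :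
    Lists ((List.range n).filter p) (Finset.univ.filter (fun x : Fin n => p x.1 = true)) := by
  refine ⟨fun x hx => ?_, fun x => ?_⟩
  · rw [List.mem_filter, List.mem_range] at hx
    exact hx.1
  · rw [List.mem_filter, List.mem_range, Finset.mem_filter]
    simp

open Classical in
/-- One round of the search. -/
noncomputable def stepF (D : Dig) {K : ℕ} (β : Fin K → Option (Fin D.n))
    (S : Finset (Fin D.n)) : Finset (Fin D.n) :=
  Finset.univ.filter (fun x => x ∈ S ∨ ((∀ i, β i ≠ some x) ∧ ∃ y ∈ S, (under D.A).Adj y x))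

theorem mem_stepF (D : Dig) {K : ℕ} (β : Fin K → Option (Fin D.n)) (S : Finset (Fin D.n))
    (x : Fin D.n) : x ∈ stepF D β S ↔
      x ∈ S ∨ ((∀ i, β i ≠ some x) ∧ ∃ y ∈ S, (under D.A).Adj y x) := by
  unfold stepF
  simp

theorem lists_stepC (D : Dig) (t : Tables) {b : List ℕ} {β : Fin t.K → Option (Fin D.n)}
    (hb : Codes b β) {l : List ℕ} {S : Finset (Fin D.n)} (h : Lists l S) :
    Lists (stepC t (D.n, D.bits) b l) (stepF D β S) := by
  have h1 := lists_filter (n := D.n) (fun x => memL l x ||
    (!(inB t b x) && l.any (fun y => adjB (D.n, D.bits) y x)))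
  refine ⟨h1.1, fun x => ?_⟩
  rw [show stepC t (D.n, D.bits) b l = (List.range D.n).filter (fun x => memL l x ||
    (!(inB t b x) && l.any (fun y => adjB (D.n, D.bits) y x))) from rfl, h1.2 x]
  rw [Finset.mem_filter, mem_stepF]
  have e : ∀ P : Prop, ((x ∈ (Finset.univ : Finset (Fin D.n))) ∧ P) ↔ P := fun P => by simp
  rw [e, Bool.or_eq_true, memL_iff, h.2 x, Bool.and_eq_true, Bool.not_eq_true', List.any_eq_true]
  refine or_congr_right (and_congr ?_ ?_)
  · rw [← Bool.not_eq_true, inB_iff t hb]
    push Not
    rfl
  · constructor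
    · rintro ⟨y, hy, hyx⟩
      have hy' := h.1 y hy
      exact ⟨⟨y, hy'⟩, (h.2 ⟨y, hy'⟩).mp hy, (adjB_iff D ⟨y, hy'⟩ x).mp hyx⟩
    · rintro ⟨y, hy, hyx⟩
      exact ⟨y.1, (h.2 y).mpr hy, (adjB_iff D y x).mpr hyx⟩

theorem lists_iterate (D : Dig) (t : Tables) {b : List ℕ} {β : Fin t.K → Option (Fin D.n)}
    (hb : Codes b β) {l : List ℕ} {S : Finset (Fin D.n)} (h : Lists l S) (m : ℕ) :
    Lists ((stepC t (D.n, D.bits) b)^[m] l) ((stepF D β)^[m] S) := by
  induction m with
  | zero => exact h
  | succ m ih =>
    rw [Function.iterate_succ_apply', Function.iterate_succ_apply']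
    exact lists_stepC D t hb ih

theorem lists_range (D : Dig) (c : Fin D.n) :
    Lists ((List.range D.n).filter (fun x => decide (x = c.1))) {c} := by
  refine ⟨fun x hx => ?_, fun x => ?_⟩
  · rw [List.mem_filter, List.mem_range] at hx
    exact hx.1
  · rw [List.mem_filter, List.mem_range, decide_eq_true_eq, Finset.mem_singleton]
    constructor
    · rintro ⟨-, h⟩
      exact Fin.ext h
    · rintro rfl
      exact ⟨x.2, rfl⟩

open Classical in
/-- The component as a finite set. -/
noncomputable def compF (D : Dig) {K : ℕ} (β : Fin K → Option (Fin D.n)) (c : Fin D.n) :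
    Finset (Fin D.n) :=
  Finset.univ.filter (fun x => x ∈ Comp (under D.A) β c)

theorem mem_compF (D : Dig) {K : ℕ} (β : Fin K → Option (Fin D.n)) (c x : Fin D.n) :
    x ∈ compF D β c ↔ x ∈ Comp (under D.A) β c := by
  unfold compF
  simp

theorem iterate_eq_compF (D : Dig) {K : ℕ} (β : Fin K → Option (Fin D.n)) (c : Fin D.n) :
    (stepF D β)^[D.n] {c} = compF D β c := by
  have hinc : ∀ S, S ⊆ stepF D β S := by
    intro S x hx
    rw [mem_stepF]
    exact Or.inl hx
  have hfix := iterate_fixed (stepF D β) hinc {c}
  rw [Fintype.card_fin] at hfix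
  have hc : ∀ m, c ∈ (stepF D β)^[m] {c} := by
    intro m
    induction m with
    | zero => exact Finset.mem_singleton_self c
    | succ m ih => rw [Function.iterate_succ_apply']; exact hinc _ ih
  apply Finset.Subset.antisymm
  · have key : ∀ m, (stepF D β)^[m] {c} ⊆ compF D β c := by
      intro m
      induction m with
      | zero =>
        intro x hx
        rw [Function.iterate_zero, id_eq, Finset.mem_singleton] at hx
        rw [hx, mem_compF]
        exact self_mem_comp c
      | succ m ih =>
        intro x hx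
        rw [Function.iterate_succ_apply'] at hx
        rw [mem_stepF] at hx
        rcases hx with hx | ⟨h1, y, hy, hyx⟩
        · exact ih hx
        · rw [mem_compF]
          exact comp_closed ((mem_compF D β c y).mp (ih hy)) hyx h1
    exact key _
  · intro x hx
    rw [mem_compF] at hx
    induction hx with
    | refl => exact hc _
    | @tail y z _ hyz ih =>
      rw [← hfix, mem_stepF]
      exact Or.inr ⟨hyz.2, y, ih, hyz.1⟩

/-- The component search is correct. -/
theorem lists_compL (D : Dig) (t : Tables) {b : List ℕ} {β : Fin t.K → Option (Fin D.n)}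
    (hb : Codes b β) (c : Fin D.n) :
    Lists (compL t (D.n, D.bits) b c.1) (compF D β c) := by
  rw [← iterate_eq_compF]
  exact lists_iterate D t hb (lists_range D c) D.n

end Pool.Agent.Helper7.ACP
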