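import Pool.Agent.Helper7.ACP.Algo
import Pool.Agent.Helper86.Poly.Fun2

/-!
The table algorithm runs in polynomial time.
-/

set_option autoImplicit false

namespace Pool.Agent.Helper86.PT.ACPAlg

open Pool.Agent.Helper7.ACP.Alg

variable {α β σ : Type} [TEnc α] [TEnc β] [TEnc σ]

theorem pFst : Poly (fun p : α × β => p.1) := Poly.fst Poly.id

theorem pSnd : Poly (fun p : α × β => p.2) := Poly.snd Poly.id

/-- Folding over a constant list. -/
theorem poly_foldlConst {τ : Type} (L : List τ) {g : α → σ} {f : α → σ → τ → σ} (hg : Poly g)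
    (hf : ∀ b, Poly (fun p : α × σ => f p.1 p.2 b)) :
    Poly (fun a => L.foldl (f a) (g a)) := by
  induction L generalizing g with
  | nil => exact hg
  | cons b L ih => exact ih ((hf b).comp (Poly.id.pair hg))

theorem poly_arcB {I : α → Inst} {x y : α → ℕ} (hI : Poly I) (hx : Poly x) (hy : Poly y) :
    Poly (fun a => arcB (I a) (x a) (y a)) :=
  Poly.getD hI.snd ((hx.mul hI.fst).add hy) (Poly.const false)

theorem poly_adjB {I : α → Inst} {x y : α → ℕ} (hI : Poly I) (hx : Poly x) (hy : Poly y) :
    Poly (fun a => adjB (I a) (x a) (y a)) :=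
  (poly_arcB hI hx hy).or (poly_arcB hI hy hx)

theorem poly_memL {S : α → List ℕ} {x : α → ℕ} (hS : Poly S) (hx : Poly x) :
    Poly (fun a => memL (S a) (x a)) :=
  Poly.any (f := fun a y => decide (y = x a)) hS (Poly.eqNat pSnd (hx.comp pFst))

variable (t : Tables)

theorem poly_inB {b : α → List ℕ} {x : α → ℕ} (hb : Poly b) (hx : Poly x) :
    Poly (fun a => inB t (b a) (x a)) :=
  Poly.any (l := fun _ => List.range t.K) (f := fun a i => decide ((b a).getD i 0 = x a + 1))
    (Poly.const _) (Poly.eqNat (Poly.getD (hb.comp pFst) pSnd (Poly.const 0))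
      (hx.comp pFst).succ)

theorem poly_stepC {I : α → Inst} {b S : α → List ℕ} (hI : Poly I) (hb : Poly b) (hS : Poly S) :
    Poly (fun a => stepC t (I a) (b a) (S a)) :=
  Poly.filter (l := fun a => List.range (I a).1)
    (f := fun a x => memL (S a) x || (!(inB t (b a) x) && (S a).any (fun y => adjB (I a) y x)))
    (Poly.range hI.fst)
    ((poly_memL (hS.comp pFst) pSnd).or ((poly_inB t (hb.comp pFst) pSnd).not.and
      (Poly.any (f := fun (p : α × ℕ) y => adjB (I p.1) y p.2) (hS.comp pFst)
        (poly_adjB (hI.comp (pFst.comp pFst)) pSnd (pSnd.comp pFst)))))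

theorem poly_compL {I : α → Inst} {b : α → List ℕ} {c : α → ℕ} (hI : Poly I) (hb : Poly b)
    (hc : Poly c) : Poly (fun a => compL t (I a) (b a) (c a)) := by
  obtain ⟨B, hB, -, hB'⟩ := (Poly.range hI.fst).size_bound
  refine Poly.natIter (n := fun a => (I a).1) (f := fun a S => stepC t (I a) (b a) S) hI.fst
    (Poly.filter (f := fun a x => decide (x = c a)) (Poly.range hI.fst)
      (Poly.eqNat pSnd (hc.comp pFst)))
    (poly_stepC t (hI.comp pFst) (hb.comp pFst) pSnd) hB ?_
  intro a i _
  cases i with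
  | zero => exact (tsz_sublist List.filter_sublist).trans (hB' a)
  | succ i =>
    rw [Function.iterate_succ_apply']
    exact (tsz_sublist List.filter_sublist).trans (hB' a)

theorem poly_freeB {I : α → Inst} {b S : α → List ℕ} {i : α → ℕ} (hI : Poly I) (hb : Poly b)
    (hS : Poly S) (hi : Poly i) : Poly (fun a => freeB (I a) (b a) (S a) (i a)) :=
  (Poly.isZero (Poly.getD hb hi (Poly.const 0))).or
    (Poly.all (f := fun a x => !(adjB (I a) x ((b a).getD (i a) 0 - 1))) hS
      (poly_adjB (hI.comp pFst) pSnd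
        (((Poly.getD hb hi (Poly.const 0)).pred).comp pFst)).not)

theorem poly_setB {b : α → List ℕ} {i v : α → ℕ} (hb : Poly b) (hi : Poly i) (hv : Poly v) :
    Poly (fun a => setB t (b a) (i a) (v a)) :=
  Poly.map (l := fun _ => List.range t.K)
    (f := fun a j => bif decide (j = i a) then v a + 1 else (b a).getD j 0) (Poly.const _)
    (Poly.cond (Poly.eqNat pSnd (hi.comp pFst)) (hv.comp pFst).succ
      (Poly.getD (hb.comp pFst) pSnd (Poly.const 0)))

theorem poly_maskC {b : α → List ℕ} {x y : α → ℕ} (hb : Poly b) (hx : Poly x) (hy : Poly y) :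
    Poly (fun a => maskC t (b a) (x a) (y a)) := by
  refine poly_foldlConst ((List.range t.K).map (fun j => (j, 4 ^ j)))
    (f := fun a s p => s + ((bif decide ((b a).getD p.1 0 = x a + 1) then 1 else 0) +
      (bif decide ((b a).getD p.1 0 = y a + 1) then 2 else 0)) * p.2) (Poly.const 0) ?_
  intro p
  refine Poly.add pSnd (Poly.mul (Poly.add
    (Poly.cond (Poly.eqNat ?_ (hx.comp pFst).succ) (Poly.const 1) (Poly.const 0))
    (Poly.cond (Poly.eqNat ?_ (hy.comp pFst).succ) (Poly.const 2) (Poly.const 0)))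
    (Poly.const _))
  · exact Poly.getD (hb.comp pFst) (Poly.const _) (Poly.const 0)
  · exact Poly.getD (hb.comp pFst) (Poly.const _) (Poly.const 0)

theorem poly_plusC {x y : α → ℕ} (hx : Poly x) (hy : Poly y) :
    Poly (fun a => plusC t (x a) (y a)) :=
  Poly.getD (Poly.const t.plus) ((hx.mul (Poly.const t.N)).add hy) (Poly.const 0)

theorem poly_forgetC {i x c : α → ℕ} (hi : Poly i) (hx : Poly x) (hc : Poly c) :
    Poly (fun a => forgetC t (i a) (x a) (c a)) :=
  Poly.getD (Poly.const t.forget)
    ((((hi.mul (Poly.const 3)).add hx).mul (Poly.const t.N)).add hc) (Poly.const 0)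

theorem poly_addArc {I : α → Inst} {b : α → List ℕ} {c x y : α → ℕ} (hI : Poly I) (hb : Poly b)
    (hc : Poly c) (hx : Poly x) (hy : Poly y) :
    Poly (fun a => addArc t (I a) (b a) (c a) (x a) (y a)) :=
  Poly.cond (poly_arcB hI hx hy)
    (poly_plusC t hc (Poly.getD (Poly.const t.arc) (poly_maskC t hb hx hy) (Poly.const 0))) hc

theorem getD_le_sum (l : List ℕ) (i : ℕ) : l.getD i 0 ≤ l.sum := by
  induction l generalizing i with
  | nil => simp
  | cons a l ih =>
    cases i with
    | zero => simp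
    | succ i =>
      rw [List.getD_cons_succ, List.sum_cons]
      exact (ih i).trans (Nat.le_add_left _ _)

theorem addArc_le {M : ℕ} (hM : t.plus.sum ≤ M) (I : Inst) (b : List ℕ) (c x y : ℕ)
    (hc : c ≤ M) : addArc t I b c x y ≤ M := by
  unfold addArc
  cases arcB I x y with
  | false => exact hc
  | true => exact (getD_le_sum _ _).trans hM

theorem poly_arcCode {I : α → Inst} {b C : α → List ℕ} {v : α → ℕ} (hI : Poly I) (hb : Poly b)
    (hC : Poly C) (hv : Poly v) : Poly (fun a => arcCode t (I a) (b a) (C a) (v a)) := by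
  refine Poly.foldl (l := fun a => List.range (I a).1) (g := fun _ => t.zero)
    (f := fun a c y => bif memL (C a) y then c else
      addArc t (I a) (b a) (addArc t (I a) (b a) c (v a) y) y (v a))
    (Poly.range hI.fst) (Poly.const _) ?_
    (B := fun _ => 2 * (t.zero + t.plus.sum) + 1) (PB.const _) ?_
  · refine Poly.cond (poly_memL (hC.comp pFst) (pSnd.comp pSnd)) (pFst.comp pSnd) ?_
    exact poly_addArc t (hI.comp pFst) (hb.comp pFst)
      (poly_addArc t (hI.comp pFst) (hb.comp pFst) (pFst.comp pSnd) (hv.comp pFst)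
        (pSnd.comp pSnd)) (pSnd.comp pSnd) (hv.comp pFst)
  · intro a i
    rw [tsz_nat]
    have key : ∀ (l : List ℕ) (c : ℕ), c ≤ t.zero + t.plus.sum →
        l.foldl (fun c y => bif memL (C a) y then c else
          addArc t (I a) (b a) (addArc t (I a) (b a) c (v a) y) y (v a)) c
          ≤ t.zero + t.plus.sum := by
      intro l
      induction l with
      | nil => intro c hc; exact hc
      | cons y l ih =>
        intro c hc
        rw [List.foldl_cons]
        apply ih
        cases memL (C a) y with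
        | true => exact hc
        | false => exact addArc_le t (by omega) _ _ _ _ _ (addArc_le t (by omega) _ _ _ _ _ hc)
    have := key (List.take i (List.range (I a).1)) t.zero (by omega)
    omega

theorem poly_slotsL {n : α → ℕ} (hn : Poly n) (k : ℕ) : Poly (fun a => slotsL (n a) k) := by
  induction k with
  | zero => exact Poly.const [[]]
  | succ k ih =>
    exact Poly.flatMap (f := fun a b => (List.range (n a + 1)).map (fun z => z :: b)) ih
      (Poly.map (f := fun (p : α × List ℕ) z => z :: p.2) (Poly.range (hn.comp pFst).succ)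
        (Poly.cons pSnd (pSnd.comp pFst)))

theorem poly_pairsL {n : α → ℕ} (hn : Poly n) : Poly (fun a => pairsL t (n a)) :=
  Poly.product (Poly.const _) (Poly.range ((Poly.const 2).mul hn).succ)

theorem poly_factsL {n : α → ℕ} (hn : Poly n) : Poly (fun a => factsL t (n a)) :=
  Poly.product (Poly.product (poly_slotsL hn t.K) (Poly.range hn)) (poly_pairsL t hn)

theorem poly_lookup {Tb : α → List Fact} {b : α → List ℕ} {c τ s : α → ℕ} (hT : Poly Tb)
    (hb : Poly b) (hc : Poly c) (hτ : Poly τ) (hs : Poly s) :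
    Poly (fun a => lookup t (Tb a) (b a) (c a) (τ a) (s a)) := by
  refine Poly.any (f := fun a e => (List.range t.K).all (fun i =>
    decide (e.1.1.getD i 0 = (b a).getD i 0)) &&
    (decide (e.1.2 = c a) && (decide (e.2.1 = τ a) && decide (e.2.2 = s a)))) hT ?_
  refine Poly.and (Poly.all (l := fun _ => List.range t.K)
    (f := fun (p : α × Fact) i => decide (p.2.1.1.getD i 0 = (b p.1).getD i 0)) (Poly.const _) ?_)
    (Poly.and (Poly.eqNat ?_ (hc.comp pFst)) (Poly.and (Poly.eqNat ?_ (hτ.comp pFst))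
      (Poly.eqNat ?_ (hs.comp pFst))))
  · exact Poly.eqNat (Poly.getD (pSnd.comp pFst).fst.fst pSnd (Poly.const 0))
      (Poly.getD (hb.comp (pFst.comp pFst)) pSnd (Poly.const 0))
  · exact (pSnd (α := α) (β := Fact)).fst.snd
  · exact (pSnd (α := α) (β := Fact)).snd.fst
  · exact (pSnd (α := α) (β := Fact)).snd.snd

theorem poly_repsL {I : α → Inst} {b S : α → List ℕ} (hI : Poly I) (hb : Poly b) (hS : Poly S) :
    Poly (fun a => repsL t (I a) (b a) (S a)) :=
  Poly.filter (f := fun a c => (compL t (I a) (b a) c).all (fun x => decide (c ≤ x))) hS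
    (Poly.all (f := fun (p : α × ℕ) x => decide (p.2 ≤ x))
      (poly_compL t (hI.comp pFst) (hb.comp pFst) pSnd) (Poly.le (pSnd.comp pFst) pSnd))

theorem poly_comb {n : α → ℕ} {Tb : α → List Fact} {b : α → List ℕ} {R : α → List ℕ}
    {P : α → List (ℕ × ℕ)} (hn : Poly n) (hT : Poly Tb) (hb : Poly b) (hR : Poly R)
    (hP : Poly P) : Poly (fun a => comb t (n a) (Tb a) (b a) (R a) (P a)) := by
  obtain ⟨B1, hB1, -, hB1'⟩ := (poly_pairsL t hn).size_bound
  obtain ⟨B2, hB2, -, hB2'⟩ := hP.size_bound
  refine Poly.foldl (l := R) (g := P) (f := fun a P c => (pairsL t (n a)).filter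
      (fun q => P.any (fun p => (List.range t.N).any (fun τ =>
        decide (p.2 ≤ q.2) && (lookup t (Tb a) (b a) c τ (q.2 - p.2) &&
          decide (plusC t p.1 τ = q.1)))))) hR hP ?_ (hB1.add hB2) ?_
  · refine Poly.filter (f := fun (z : α × List (ℕ × ℕ) × ℕ) q =>
      z.2.1.any (fun p => (List.range t.N).any (fun τ =>
        decide (p.2 ≤ q.2) && (lookup t (Tb z.1) (b z.1) z.2.2 τ (q.2 - p.2) &&
          decide (plusC t p.1 τ = q.1))))) (poly_pairsL t (hn.comp pFst)) ?_
    refine Poly.any (f := fun (z : (α × List (ℕ × ℕ) × ℕ) × (ℕ × ℕ)) p =>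
      (List.range t.N).any (fun τ =>
        decide (p.2 ≤ z.2.2) && (lookup t (Tb z.1.1) (b z.1.1) z.1.2.2 τ (z.2.2 - p.2) &&
          decide (plusC t p.1 τ = z.2.1)))) ((pFst.comp pSnd).comp pFst) ?_
    refine Poly.any (l := fun _ => List.range t.N)
      (f := fun (z : ((α × List (ℕ × ℕ) × ℕ) × (ℕ × ℕ)) × (ℕ × ℕ)) τ =>
        decide (z.2.2 ≤ z.1.2.2) && (lookup t (Tb z.1.1.1) (b z.1.1.1) z.1.1.2.2 τ
          (z.1.2.2 - z.2.2) && decide (plusC t z.2.1 τ = z.1.2.1))) (Poly.const _) ?_
    -- the components of the final state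
    have e1 : Poly (fun y : (((α × List (ℕ × ℕ) × ℕ) × (ℕ × ℕ)) × (ℕ × ℕ)) × ℕ => y.1.2.2) :=
      (pSnd.comp pFst).snd
    have e2 : Poly (fun y : (((α × List (ℕ × ℕ) × ℕ) × (ℕ × ℕ)) × (ℕ × ℕ)) × ℕ => y.1.2.1) :=
      (pSnd.comp pFst).fst
    have e3 : Poly (fun y : (((α × List (ℕ × ℕ) × ℕ) × (ℕ × ℕ)) × (ℕ × ℕ)) × ℕ => y.1.1.2.2) :=
      ((pFst.comp pFst).snd).snd
    have e4 : Poly (fun y : (((α × List (ℕ × ℕ) × ℕ) × (ℕ × ℕ)) × (ℕ × ℕ)) × ℕ => y.1.1.2.1) :=
      ((pFst.comp pFst).snd).fst
    have e5 : Poly (fun y : (((α × List (ℕ × ℕ) × ℕ) × (ℕ × ℕ)) × (ℕ × ℕ)) × ℕ => y.1.1.1.1) :=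
      ((pFst.comp pFst).fst).fst
    have e6 : Poly (fun y : (((α × List (ℕ × ℕ) × ℕ) × (ℕ × ℕ)) × (ℕ × ℕ)) × ℕ =>
        y.1.1.1.2.2) := (((pFst.comp pFst).fst).snd).snd
    have e7 : Poly (fun y : (((α × List (ℕ × ℕ) × ℕ) × (ℕ × ℕ)) × (ℕ × ℕ)) × ℕ => y.2) := pSnd
    exact (Poly.le e1 e3).and ((poly_lookup t (hT.comp e5) (hb.comp e5) e6 e7 (e3.sub e1)).and
      (Poly.eqNat (poly_plusC t e2 e7) e4))
  · intro a i
    have key : ∀ (l : List ℕ) (P0 : List (ℕ × ℕ)), tsz P0 ≤ B1 (tsz a) + B2 (tsz a) →
        tsz (l.foldl (fun P c => (pairsL t (n a)).filter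
          (fun q => P.any (fun p => (List.range t.N).any (fun τ =>
            decide (p.2 ≤ q.2) && (lookup t (Tb a) (b a) c τ (q.2 - p.2) &&
              decide (plusC t p.1 τ = q.1)))))) P0) ≤ B1 (tsz a) + B2 (tsz a) := by
      intro l
      induction l with
      | nil => intro P0 h; exact h
      | cons c l ih =>
        intro P0 h
        rw [List.foldl_cons]
        apply ih
        refine (tsz_sublist List.filter_sublist).trans ((hB1' a).trans ?_)
        omega
    exact key _ _ ((hB2' a).trans (by omega))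

theorem poly_derive1 {I : α → Inst} {Tb : α → List Fact} {f : α → Fact} {C : α → List ℕ}
    {v i : α → ℕ} (hI : Poly I) (hT : Poly Tb) (hf : Poly f) (hC : Poly C) (hv : Poly v)
    (hi : Poly i) : Poly (fun a => derive1 t (I a) (Tb a) (f a) (C a) (v a) (i a)) := by
  have hb : Poly (fun a => (f a).1.1) := hf.fst.fst
  have hb' : Poly (fun a => setB t (f a).1.1 (i a) (v a)) := poly_setB t hb hi hv
  refine (poly_freeB hI hb hC hi).and ?_
  refine Poly.any (f := fun a (p : ℕ × ℕ) => (List.range 3).any (fun x =>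
    decide (forgetC t (i a) x p.1 = (f a).2.1) && decide (p.2 + x = (f a).2.2))) ?_ ?_
  · refine poly_comb t hI.fst hT hb' (poly_repsL t hI hb' ?_) ?_
    · exact Poly.filter (f := fun a x => !(decide (x = v a))) hC
        (Poly.eqNat pSnd (hv.comp pFst)).not
    · exact Poly.cons (Poly.pair (poly_arcCode t hI hb' hC hv) (Poly.const 0)) (Poly.const [])
  · refine Poly.any (l := fun _ => List.range 3) (f := fun (z : α × (ℕ × ℕ)) x =>
      decide (forgetC t (i z.1) x z.2.1 = (f z.1).2.1) && decide (z.2.2 + x = (f z.1).2.2))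
      (Poly.const _) ?_
    have e1 : Poly (fun y : (α × (ℕ × ℕ)) × ℕ => y.1.1) := pFst.fst
    have e2 : Poly (fun y : (α × (ℕ × ℕ)) × ℕ => y.1.2.1) := (pFst.snd).fst
    have e3 : Poly (fun y : (α × (ℕ × ℕ)) × ℕ => y.1.2.2) := (pFst.snd).snd
    exact (Poly.eqNat (poly_forgetC t (hi.comp e1) pSnd e2) ((hf.snd.fst).comp e1)).and
      (Poly.eqNat (e3.add pSnd) ((hf.snd.snd).comp e1))

theorem poly_derive {I : α → Inst} {Tb : α → List Fact} {f : α → Fact}
    (hI : Poly I) (hT : Poly Tb) (hf : Poly f) :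
    Poly (fun a => derive t (I a) (Tb a) (f a)) := by
  have hb : Poly (fun a => (f a).1.1) := hf.fst.fst
  have hc : Poly (fun a => (f a).1.2) := hf.fst.snd
  have hC : Poly (fun a => compL t (I a) (f a).1.1 (f a).1.2) := poly_compL t hI hb hc
  refine (poly_inB t hb hc).not.and ?_
  refine Poly.any (f := fun a v => (List.range t.K).any (fun i =>
    derive1 t (I a) (Tb a) (f a) (compL t (I a) (f a).1.1 (f a).1.2) v i)) hC ?_
  refine Poly.any (l := fun _ => List.range t.K) (f := fun (z : α × ℕ) i =>
    derive1 t (I z.1) (Tb z.1) (f z.1) (compL t (I z.1) (f z.1).1.1 (f z.1).1.2) z.2 i)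
    (Poly.const _) ?_
  have e1 : Poly (fun y : (α × ℕ) × ℕ => y.1.1) := pFst.fst
  have e2 : Poly (fun y : (α × ℕ) × ℕ => y.1.2) := pFst.snd
  exact poly_derive1 t (hI.comp e1) (hT.comp e1) (hf.comp e1) (hC.comp e1) e2 pSnd

theorem poly_step {I : α → Inst} {Tb : α → List Fact} (hI : Poly I) (hT : Poly Tb) :
    Poly (fun a => step t (I a) (Tb a)) :=
  Poly.filter (f := fun a f => derive t (I a) (Tb a) f) (poly_factsL t hI.fst)
    (poly_derive t (hI.comp pFst) (hT.comp pFst) pSnd)

theorem poly_table {I : α → Inst} (hI : Poly I) : Poly (fun a => table t (I a)) := by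
  obtain ⟨B, hB, -, hB'⟩ := (poly_factsL t hI.fst).size_bound
  refine Poly.natIter (n := fun a => (I a).1) (g := fun _ => ([] : List Fact))
    (f := fun a Tb => step t (I a) Tb) hI.fst (Poly.const [])
    (poly_step t (hI.comp pFst) pSnd) hB ?_
  intro a i _
  cases i with
  | zero => exact (tsz_pos _).trans (hB' a)
  | succ i =>
    rw [Function.iterate_succ_apply']
    exact (tsz_sublist List.filter_sublist).trans (hB' a)

theorem poly_out {I : α → Inst} (hI : Poly I) : Poly (fun a => out t (I a)) := by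
  refine Poly.headD (Poly.filter (f := fun a s => decide (1 ≤ s) && (List.range t.N).any (fun τ =>
    t.acc.getD τ false && lookup t (table t (I a)) (List.replicate t.K 0) 0 τ s))
    (Poly.range ((Poly.const 2).mul hI.fst).succ) ?_) (Poly.const 0)
  refine (Poly.le (Poly.const 1) pSnd).and ?_
  refine Poly.any (l := fun _ => List.range t.N) (f := fun (z : α × ℕ) τ =>
    t.acc.getD τ false && lookup t (table t (I z.1)) (List.replicate t.K 0) 0 τ z.2)
    (Poly.const _) ?_
  have e1 : Poly (fun y : (α × ℕ) × ℕ => y.1.1) := pFst.fst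
  have e2 : Poly (fun y : (α × ℕ) × ℕ => y.1.2) := pFst.snd
  exact (Poly.getD (Poly.const t.acc) pSnd (Poly.const false)).and
    (poly_lookup t (poly_table t (hI.comp e1)) (Poly.const _) (Poly.const 0) pSnd e2)

/-! ### Decoding the input -/

/-- The number of vertices read off from the input string. -/
def decN (l : List Bool) : ℕ :=
  ((List.range l.length).filter (fun i => !(l.getD i true))).headD 0

theorem decN_spec (n : ℕ) (w : List Bool) : decN (List.replicate n true ++ false :: w) = n := by
  unfold decN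
  have h1 : (List.replicate n true ++ false :: w).length = n + (w.length + 1) := by simp
  rw [h1, List.range_add, List.filter_append]
  have h2 : (List.range n).filter
      (fun i => !((List.replicate n true ++ false :: w).getD i true)) = [] := by
    rw [List.filter_eq_nil_iff]
    intro i hi
    rw [List.mem_range] at hi
    rw [List.getD_append _ _ _ _ (by simpa using hi), List.getD_eq_getElem?_getD,
      List.getElem?_replicate, if_pos hi]
    simp
  rw [h2, List.nil_append, List.range_succ_eq_map, List.map_cons, List.filter_cons]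
  have h3 : (List.replicate n true ++ false :: w).getD (n + 0) true = false := by
    rw [List.getD_append_right _ _ _ _ (by simp)]
    simp
  rw [h3]
  rfl

theorem poly_decN {l : α → List Bool} (hl : Poly l) : Poly (fun a => decN (l a)) :=
  Poly.headD (Poly.filter (f := fun a i => !((l a).getD i true)) (Poly.range hl.length)
    (Poly.getD (hl.comp pFst) pSnd (Poly.const true)).not) (Poly.const 0)

end Pool.Agent.Helper86.PT.ACPAlg

namespace Pool.Agent.Helper7.ACP

open Pool.Agent.Helper86.PT Pool.Agent.Helper86.PT.ACPAlg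

/-- The adjacency matrix, row by row. -/
def Dig.bits (D : Dig) : List Bool :=
  (List.finRange D.n).flatMap (fun x => (List.finRange D.n).map (fun y => D.arc x y))

/-- The output of the table algorithm is computed in polynomial time. -/
theorem tm_out (t : Alg.Tables) : Nonempty (Turing.TM2ComputableInPolyTime Dig.enc
    Computability.encodeNat (fun D : Dig => Alg.out t (D.n, D.bits))) := by
  refine Helper86.PT.Poly.toTM2 (F := fun l : List Bool =>
    Computability.encodeNat (Alg.out t (decN l, l.drop (decN l + 1)))) ?_ ?_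
  · exact Helper86.PT.Poly.encodeNat (poly_out t (Helper86.PT.Poly.pair
      (poly_decN Helper86.PT.Poly.id)
      (Helper86.PT.Poly.drop Helper86.PT.Poly.id
        (Helper86.PT.Poly.succ (poly_decN Helper86.PT.Poly.id)))))
  · intro D
    have h1 : decN D.enc = D.n := decN_spec _ _
    rw [h1]
    have h2 : D.enc.drop (D.n + 1) = D.bits := by
      show (List.replicate D.n true ++ false :: D.bits).drop (D.n + 1) = D.bits
      rw [List.drop_append, List.length_replicate, Nat.add_sub_cancel_left]
      simp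
    rw [h2]

end Pool.Agent.Helper7.ACP
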