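import Pool.Agent.Helper7.ACP.LocS

/-!
# From the local form to chains of simple paths
-/

set_option autoImplicit false

namespace Pool.Agent.Helper7.ACP

open Relation

/-! ### Sums over arcs -/

section Sums

variable {V : Type} [DecidableEq V]

theorem le_sOut {F : Finset (V × V)} {f : V × V → ℕ} {x y : V} (h : (x, y) ∈ F) :
    f (x, y) ≤ sOut F f x := by
  unfold sOut
  exact Finset.single_le_sum (f := f) (fun _ _ => Nat.zero_le _) (Finset.mem_filter.mpr ⟨h, rfl⟩)

theorem le_sIn {F : Finset (V × V)} {f : V × V → ℕ} {x y : V} (h : (y, x) ∈ F) :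
    f (y, x) ≤ sIn F f x := by
  unfold sIn
  exact Finset.single_le_sum (f := f) (fun _ _ => Nat.zero_le _) (Finset.mem_filter.mpr ⟨h, rfl⟩)

theorem exists_of_sOut {F : Finset (V × V)} {f : V × V → ℕ} {x : V} (h : 0 < sOut F f x) :
    ∃ y, (x, y) ∈ F ∧ 0 < f (x, y) := by
  unfold sOut at h
  obtain ⟨e, he, he'⟩ := Finset.exists_ne_zero_of_sum_ne_zero h.ne'
  obtain ⟨h1, h2⟩ := Finset.mem_filter.mp he
  obtain ⟨a, b⟩ := e
  simp only at h2
  subst h2
  exact ⟨b, h1, Nat.pos_of_ne_zero he'⟩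

theorem exists_of_sIn {F : Finset (V × V)} {f : V × V → ℕ} {x : V} (h : 0 < sIn F f x) :
    ∃ y, (y, x) ∈ F ∧ 0 < f (y, x) := by
  unfold sIn at h
  obtain ⟨e, he, he'⟩ := Finset.exists_ne_zero_of_sum_ne_zero h.ne'
  obtain ⟨h1, h2⟩ := Finset.mem_filter.mp he
  obtain ⟨a, b⟩ := e
  simp only at h2
  subst h2
  exact ⟨a, h1, Nat.pos_of_ne_zero he'⟩

theorem sOut_uniq {F : Finset (V × V)} {f : V × V → ℕ} {x y y' : V} (h : sOut F f x ≤ 1)
    (h1 : (x, y) ∈ F) (h2 : (x, y') ∈ F) (h3 : 0 < f (x, y)) (h4 : 0 < f (x, y')) : y = y' := by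
  by_contra hne
  have h5 : ({(x, y), (x, y')} : Finset (V × V)) ⊆ F.filter (fun e => e.1 = x) := by
    intro e he
    rw [Finset.mem_insert, Finset.mem_singleton] at he
    rcases he with rfl | rfl
    · exact Finset.mem_filter.mpr ⟨h1, rfl⟩
    · exact Finset.mem_filter.mpr ⟨h2, rfl⟩
  have h6 := Finset.sum_le_sum_of_subset (f := f) h5
  rw [Finset.sum_pair (fun h => hne (Prod.mk.inj h).2)] at h6
  unfold sOut at h
  omega

theorem sIn_uniq {F : Finset (V × V)} {f : V × V → ℕ} {x y y' : V} (h : sIn F f x ≤ 1)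
    (h1 : (y, x) ∈ F) (h2 : (y', x) ∈ F) (h3 : 0 < f (y, x)) (h4 : 0 < f (y', x)) : y = y' := by
  by_contra hne
  have h5 : ({(y, x), (y', x)} : Finset (V × V)) ⊆ F.filter (fun e => e.2 = x) := by
    intro e he
    rw [Finset.mem_insert, Finset.mem_singleton] at he
    rcases he with rfl | rfl
    · exact Finset.mem_filter.mpr ⟨h1, rfl⟩
    · exact Finset.mem_filter.mpr ⟨h2, rfl⟩
  have h6 := Finset.sum_le_sum_of_subset (f := f) h5
  rw [Finset.sum_pair (fun h => hne (Prod.mk.inj h).1)] at h6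
  unfold sIn at h
  omega

end Sums

/-! ### Directed cycles -/

section Cyc

variable {V : Type} {R B : V → V → Prop}

/-- The vertices which cannot be reached from a source. -/
def Bad (R : V → V → Prop) (y : V) : Prop := ∀ s, ReflTransGen R s y → ∃ z, R z s

theorem Bad.pred {y z : V} (h : Bad R y) (h1 : R z y) : Bad R z :=
  fun s hs => h s (hs.tail h1)

theorem Bad.succ [Finite V] (ho : ∀ x y y', R x y → R x y' → y = y') {z : V} (h : Bad R z) :
    ∃ y, Bad R y ∧ R z y := by
  classical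
  choose f hf using fun y : {y // Bad R y} => y.2 y.1 .refl
  have hb : ∀ y, Bad R (f y) := fun y => y.2.pred (hf y)
  have hinj : Function.Injective (fun y : {y // Bad R y} => (⟨f y, hb y⟩ : {y // Bad R y})) := by
    intro y y' hy
    have h1 : f y = f y' := congrArg Subtype.val hy
    have h2 := hf y
    rw [h1] at h2
    exact Subtype.ext (ho _ _ _ h2 (hf y'))
  obtain ⟨y, hy⟩ := Finite.injective_iff_surjective.mp hinj ⟨z, h⟩
  refine ⟨y.1, y.2, ?_⟩
  have h1 : f y = z := congrArg Subtype.val hy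
  have h2 := hf y
  rw [h1] at h2
  exact h2

/-- The vertices on cycles with a marked arc. -/
def Cyc (R B : V → V → Prop) (y : V) : Prop := Bad R y ∧ ∃ z, B z y

theorem Cyc.succ [Finite V] (hs : ∀ x y, B x y → R x y)
    (ho : ∀ x y y', R x y → R x y' → y = y')
    (hr : ∀ z x y, B z x → R x y → ∃ y', B x y') {y : V} (h : Cyc R B y) :
    ∃ y', Cyc R B y' ∧ B y y' := by
  obtain ⟨h1, z, h2⟩ := h
  obtain ⟨y', h3, h4⟩ := h1.succ ho
  obtain ⟨y'', h5⟩ := hr _ _ _ h2 h4
  have h6 : y'' = y' := ho _ _ _ (hs _ _ h5) h4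
  subst h6
  exact ⟨y'', ⟨h3, y, h5⟩, h5⟩

theorem Cyc.pred [Finite V] (hs : ∀ x y, B x y → R x y)
    (ho : ∀ x y y', R x y → R x y' → y = y') (hi : ∀ x x' y, R x y → R x' y → x = x')
    (hr : ∀ z x y, B z x → R x y → ∃ y', B x y') {y : V} (h : Cyc R B y) :
    ∃ z, Cyc R B z ∧ B z y := by
  classical
  choose f hf using fun y : {y // Cyc R B y} => y.2.succ hs ho hr
  have hinj : Function.Injective
      (fun y : {y // Cyc R B y} => (⟨f y, (hf y).1⟩ : {y // Cyc R B y})) := by
    intro y y' hy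
    have h1 : f y = f y' := congrArg Subtype.val hy
    have h2 := (hf y).2
    rw [h1] at h2
    exact Subtype.ext (hi _ _ _ (hs _ _ h2) (hs _ _ (hf y').2))
  obtain ⟨z, hz⟩ := Finite.injective_iff_surjective.mp hinj ⟨y, h⟩
  have h1 : f z = y := congrArg Subtype.val hz
  have h2 := (hf z).2
  rw [h1] at h2
  exact ⟨z.1, z.2, h2⟩

/-- A walk from a source is a path through all vertices before its end. -/
theorem exists_path {A : V → V → Prop} (hA : ∀ x y, R x y → A x y)
    (hi : ∀ x x' y, R x y → R x' y → x = x') {s x y : V} (hs : ∀ z, ¬ R z s)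
    (hx : ReflTransGen R x y) (hy : ReflTransGen R s y) :
    ∃ p : List V, SP A p ∧ x ∈ p ∧ y ∈ p ∧ p.head? = some s := by
  obtain ⟨q, hq, hn⟩ := exists_nodup_wk hy
  have hpred : ∀ {q : List V} {s y : V}, Wk R s q y → ∀ x' ∈ q, ∃ x ∈ s :: q, R x x' := by
    intro q s y h
    induction h with
    | nil => intro x' hx'; simp at hx'
    | @cons u x w q h1 _ ih =>
      intro x' hx'
      rcases List.mem_cons.mp hx' with rfl | hx'
      · exact ⟨u, by simp, h1⟩
      · obtain ⟨x0, h2, h3⟩ := ih x' hx'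
        exact ⟨x0, List.mem_cons_of_mem _ h2, h3⟩
  have hend : ∀ {q : List V} {s y : V}, Wk R s q y → y ∈ s :: q := by
    intro q s y h
    induction h with
    | nil => simp
    | cons _ _ ih => exact List.mem_cons_of_mem _ ih
  have hchain : ∀ {q : List V} {s y : V}, Wk R s q y → (s :: q).IsChain A := by
    intro q s y h
    induction h with
    | nil => simp
    | cons h1 _ ih => exact List.isChain_cons_cons.mpr ⟨hA _ _ h1, ih⟩
  refine ⟨s :: q, ⟨hn, hchain hq⟩, ?_, hend hq, rfl⟩
  induction hx using ReflTransGen.head_induction_on with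
  | refl => exact hend hq
  | @head a c h1 _ ih =>
    rcases List.mem_cons.mp ih with rfl | h2
    · exact absurd h1 (hs _)
    · obtain ⟨x0, h3, h4⟩ := hpred hq c h2
      rw [hi _ _ _ h1 h4]
      exact h3

/-- Two vertices reachable from a source are on a common path. -/
theorem exists_path2 {A : V → V → Prop} (hA : ∀ x y, R x y → A x y)
    (ho : ∀ x y y', R x y → R x y' → y = y') (hi : ∀ x x' y, R x y → R x' y → x = x')
    {s x y : V} (hs : ∀ z, ¬ R z s) (hx : ReflTransGen R s x) (hy : ReflTransGen R s y) :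
    ∃ p : List V, SP A p ∧ x ∈ p ∧ y ∈ p ∧ p.head? = some s := by
  have hU : Relator.RightUnique R := fun a b c h1 h2 => ho a b c h1 h2
  rcases ReflTransGen.total_of_right_unique hU hx hy with h | h
  · exact exists_path hA hi hs h hy
  · obtain ⟨p, h1, h2, h3, h4⟩ := exists_path hA hi hs h hx
    exact ⟨p, h1, h3, h2, h4⟩

end Cyc

/-! ### Chains from the local form -/

section Chain

variable {V : Type} {A : V → V → Prop} {R B : Bool → V → V → Prop}

/-- The properties of the marked arcs. -/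
structure HS (A : V → V → Prop) (R B : Bool → V → V → Prop) (u : V) : Prop where
  sub : ∀ c x y, B c x y → R c x y
  arc : ∀ c x y, R c x y → A x y
  out1 : ∀ c x y y', R c x y → R c x y' → y = y'
  in1 : ∀ c x x' y, R c x y → R c x' y → x = x'
  rule : ∀ c z x y, B c z x → R c x y → ∃ y', B c x y'
  deg : ∀ c z x y, B c z x → B c x y → x ≠ u ∧ ∀ c' w, B c' x w ∨ B c' w x → c' = c

/-- Adjacency by marked arcs. -/
def AdB (B : Bool → V → V → Prop) (x y : V) : Prop := ∃ c, B c x y ∨ B c y x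

/-- The sources of colour `c`. -/
def Src (R : Bool → V → V → Prop) (j : Bool × V) : Prop :=
  (∀ z, ¬ R j.1 z j.2) ∧ ∃ z, R j.1 j.2 z

/-- The sources whose paths meet. -/
def Meet (R : Bool → V → V → Prop) (j k : Bool × V) : Prop :=
  Src R j ∧ Src R k ∧ ∃ z, ReflTransGen (R j.1) j.2 z ∧ ReflTransGen (R k.1) k.2 z

variable [Finite V]

theorem HS.closed {u : V} (h : HS A R B u) {c : Bool} {x y : V} (hx : Cyc (R c) (B c) x)
    (hxy : AdB B x y) : Cyc (R c) (B c) y := by
  obtain ⟨y1, h1, h2⟩ := hx.succ (h.sub c) (h.out1 c) (h.rule c)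
  obtain ⟨y2, h3, h4⟩ := hx.pred (h.sub c) (h.out1 c) (h.in1 c) (h.rule c)
  obtain ⟨c', h5⟩ := hxy
  have h6 := (h.deg c _ _ _ h4 h2).2 c' y h5
  subst h6
  rcases h5 with h5 | h5
  · rw [h.out1 _ _ _ _ (h.sub _ _ _ h5) (h.sub _ _ _ h2)]
    exact h1
  · rw [h.in1 _ _ _ _ (h.sub _ _ _ h5) (h.sub _ _ _ h4)]
    exact h3

theorem HS.not_cyc {u : V} (h : HS A R B u) {c : Bool} {x : V} (hx : ReflTransGen (AdB B) u x) :
    ¬ Cyc (R c) (B c) x := by
  induction hx with
  | refl =>
    intro h1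
    obtain ⟨y1, -, h2⟩ := h1.succ (h.sub c) (h.out1 c) (h.rule c)
    obtain ⟨y2, -, h4⟩ := h1.pred (h.sub c) (h.out1 c) (h.in1 c) (h.rule c)
    exact (h.deg c _ _ _ h4 h2).1 rfl
  | tail _ h1 ih =>
    intro h2
    refine ih (h.closed h2 ?_)
    obtain ⟨c', h3⟩ := h1
    exact ⟨c', h3.symm⟩

/-- A marked arc is on the path of a source. -/
theorem HS.src {u : V} (h : HS A R B u) {c : Bool} {x y : V} (hy : ReflTransGen (AdB B) u y)
    (hxy : B c x y) : ∃ s, Src R (c, s) ∧ ReflTransGen (R c) s x ∧ ReflTransGen (R c) s y := by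
  have h1 : ¬ Bad (R c) y := fun h2 => h.not_cyc hy ⟨h2, x, hxy⟩
  unfold Bad at h1
  push Not at h1
  obtain ⟨s, h2, h3⟩ := h1
  rcases ReflTransGen.cases_tail_iff _ _ _ |>.mp h2 with h4 | ⟨x', h4, h5⟩
  · subst h4
    exact absurd (h.sub _ _ _ hxy) (h3 x)
  · have h6 := h.in1 _ _ _ _ h5 (h.sub _ _ _ hxy)
    subst h6
    refine ⟨s, ⟨h3, ?_⟩, h4, h2⟩
    rcases ReflTransGen.cases_head_iff.mp h2 with h7 | ⟨z, h7, -⟩
    · subst h7
      exact absurd h5 (h3 x')
    · exact ⟨z, h7⟩

theorem HS.src' {u : V} (h : HS A R B u) {x y : V} (hx : ReflTransGen (AdB B) u x)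
    (hxy : AdB B x y) : ∃ j : Bool × V, Src R j ∧ ReflTransGen (R j.1) j.2 x ∧
      ReflTransGen (R j.1) j.2 y := by
  obtain ⟨c, h1 | h1⟩ := hxy
  · obtain ⟨s, h2, h3, h4⟩ := h.src (hx.tail ⟨c, Or.inl h1⟩) h1
    exact ⟨(c, s), h2, h3, h4⟩
  · obtain ⟨s, h2, h3, h4⟩ := h.src hx h1
    exact ⟨(c, s), h2, h4, h3⟩

theorem HS.meet {u : V} (h : HS A R B u) {v : V} (hv : ReflTransGen (AdB B) u v) :
    u = v ∨ ∃ j k, Src R j ∧ ReflTransGen (R j.1) j.2 u ∧ Src R k ∧
      ReflTransGen (R k.1) k.2 v ∧ ReflTransGen (Meet R) j k := by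
  induction hv with
  | refl => exact Or.inl rfl
  | @tail x y h1 h2 ih =>
    right
    obtain ⟨l, h3, h4, h5⟩ := h.src' h1 h2
    rcases ih with rfl | ⟨j, k, h6, h7, h8, h9, h10⟩
    · exact ⟨l, l, h3, h4, h3, h5, .refl⟩
    · exact ⟨j, l, h6, h7, h3, h5, h10.tail ⟨h8, h3, x, h9, h4⟩⟩

omit [Finite V] in
theorem HS.chain {u0 : V} (h : HS A R B u0) {v : V} {j k : Bool × V} {q : List (Bool × V)}
    (hq : Wk (Meet R) j q k) (hj : Src R j) (hv : ReflTransGen (R k.1) k.2 v) :
    ∀ u, ReflTransGen (R j.1) j.2 u → ∃ L, Rs A u v L ∧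
      L.map List.head? = (j :: q).map (fun i => some i.2) := by
  induction hq with
  | nil j =>
    intro u hu
    obtain ⟨p, h1, h2, h3, h4⟩ := exists_path2 (h.arc j.1) (h.out1 j.1) (h.in1 j.1) hj.1 hu hv
    exact ⟨[p], .cons h1 h2 h3 (.nil _), by simp [h4]⟩
  | @cons j i k q h1 _ ih =>
    intro u hu
    obtain ⟨-, h2, z, h3, h4⟩ := h1
    obtain ⟨L, h5, h6⟩ := ih h2 hv z h4
    obtain ⟨p, h7, h8, h9, h10⟩ := exists_path2 (h.arc j.1) (h.out1 j.1) (h.in1 j.1) hj.1 hu h3
    refine ⟨p :: L, .cons h7 h8 h9 h5, ?_⟩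
    rw [List.map_cons, h6, h10]
    rfl

omit [Finite V] in
theorem meet_src {j k : Bool × V} {q : List (Bool × V)} (hq : Wk (Meet R) j q k)
    (hj : Src R j) : ∀ i ∈ j :: q, Src R i := by
  induction hq with
  | nil => intro i hi; rw [List.mem_singleton.mp hi]; exact hj
  | cons h1 _ ih =>
    intro i hi
    rcases List.mem_cons.mp hi with rfl | hi
    · exact hj
    · exact ih h1.2.1 i hi

end Chain

variable {V : Type} [DecidableEq V] {A : V → V → Prop}

theorem count_some (l : List (Bool × V)) (x : V) :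
    (l.map (fun i => some i.2)).count (some x) = l.count (false, x) + l.count (true, x) := by
  induction l with
  | nil => rfl
  | cons a l ih =>
    obtain ⟨c, y⟩ := a
    rw [List.map_cons, List.count_cons, List.count_cons, List.count_cons, ih]
    simp only [beq_iff_eq, Option.some.injEq, Prod.mk.injEq]
    by_cases hy : y = x
    · cases c <;> simp [hy] <;> omega
    · simp [hy]

omit [DecidableEq V] in
theorem Rn.adj {G : V → V → Prop} {u v : V} {T : List V} (h : Rn G u v T) :
    ReflTransGen (fun x y => G x y ∨ G y x) u v := by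
  have h1 : ∀ {a b : V}, ReflTransGen G a b → ReflTransGen (fun x y => G x y ∨ G y x) a b :=
    fun h => ReflTransGen.mono (fun _ _ => Or.inl) _ _ h
  have h2 : ∀ {a b : V}, ReflTransGen G a b → ReflTransGen (fun x y => G x y ∨ G y x) b a :=
    fun h => ReflTransGen.mono (fun _ _ => Or.inr) _ _ h.swap
  induction h with
  | nil => exact .refl
  | fwd h3 _ ih => exact (h1 h3).trans ih
  | bwd h3 _ ih => exact (h2 h3).trans ih

theorem rs_of_locS [Finite V] {F : Finset (V × V)} (hF : ∀ x y, (x, y) ∈ F ↔ A x y)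
    {m : V → ℕ} {u v : V} (huv : u ≠ v) (h : LocS F m u v) :
    ∃ L, Rs A u v L ∧ AvailS m (L.map List.head?) := by
  obtain ⟨α, β, h1, h2, h3⟩ := h
  set R : Bool → V → V → Prop := fun c x y => (x, y) ∈ F ∧ 0 < α c (x, y) with hR
  set B : Bool → V → V → Prop := fun c x y => (x, y) ∈ F ∧ 0 < β c (x, y) with hB
  have hH : HS A R B u := by
    refine ⟨fun c x y h => ⟨h.1, h.2.trans_le (h1 c _).1⟩, fun c x y h => (hF x y).mp h.1,
      fun c x y y' h h' => sOut_uniq ((h3 x).1 c).1 h.1 h'.1 h.2 h'.2,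
      fun c x x' y h h' => sIn_uniq ((h3 y).1 c).2.1 h.1 h'.1 h.2 h'.2,
      fun c z x y h h' => ?_, fun c z x y h h' => ?_⟩
    · have h4 := ((h3 x).1 c).2.2
      have h5 := le_sIn (f := β c) h.1
      have h6 := le_sOut (f := α c) h'.1
      have h7 := h.2
      have h8 := h'.2
      exact exists_of_sOut (by omega)
    · have h4 := (h3 x).2.1
      have h5 := le_sIn (f := β c) h.1
      have h6 := le_sOut (f := β c) h'.1
      have h7 := h.2
      have h8 := h'.2
      refine ⟨?_, fun c' w hw => ?_⟩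
      · intro hx
        rw [if_pos hx] at h4
        cases c <;> omega
      · by_contra hc
        rcases hw with hw | hw
        · have h9 := le_sOut (f := β c') hw.1
          have h10 := hw.2
          cases c <;> cases c' <;> first | exact hc rfl | omega
        · have h9 := le_sIn (f := β c') hw.1
          have h10 := hw.2
          cases c <;> cases c' <;> first | exact hc rfl | omega
  -- the walk along the bodies
  have hwalk : ReflTransGen (AdB B) u v := by
    set E := F.filter (fun e => 0 < β false e + β true e) with hE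
    have hoD : ∀ x, oD E x = sOut F (β false) x + sOut F (β true) x := by
      intro x
      unfold oD sOut
      rw [Finset.card_eq_sum_ones, hE, Finset.filter_filter, Finset.sum_filter,
        ← Finset.sum_add_distrib, Finset.sum_filter]
      refine Finset.sum_congr rfl (fun e _ => ?_)
      have := h2 e
      by_cases h1 : e.1 = x
      · by_cases h2 : 0 < β false e + β true e
        · rw [if_pos ⟨h2, h1⟩, if_pos h1]; omega
        · rw [if_neg (fun h => h2 h.1), if_pos h1]; omega
      · rw [if_neg (fun h => h1 h.2), if_neg h1]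
    have hiD : ∀ x, iD E x = sIn F (β false) x + sIn F (β true) x := by
      intro x
      unfold iD sIn
      rw [Finset.card_eq_sum_ones, hE, Finset.filter_filter, Finset.sum_filter,
        ← Finset.sum_add_distrib, Finset.sum_filter]
      refine Finset.sum_congr rfl (fun e _ => ?_)
      have := h2 e
      by_cases h1 : e.2 = x
      · by_cases h2 : 0 < β false e + β true e
        · rw [if_pos ⟨h2, h1⟩, if_pos h1]; omega
        · rw [if_neg (fun h => h2 h.1), if_pos h1]; omega
      · rw [if_neg (fun h => h1 h.2), if_neg h1]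
    have hadj : ∀ {T : List V}, Rn (fun x y => (x, y) ∈ E) u v T → ReflTransGen (AdB B) u v := by
      intro T hT
      refine ReflTransGen.mono (fun x y hxy => ?_) _ _ hT.adj
      have key : ∀ {a b : V}, (a, b) ∈ E → ∃ c, B c a b := by
        intro a b hab
        rw [hE, Finset.mem_filter] at hab
        by_cases h5 : 0 < β false (a, b)
        · exact ⟨false, hab.1, h5⟩
        · exact ⟨true, hab.1, by have := hab.2; omega⟩
      rcases hxy with hxy | hxy
      · obtain ⟨c, hc⟩ := key hxy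
        exact ⟨c, Or.inl hc⟩
      · obtain ⟨c, hc⟩ := key hxy
        exact ⟨c, Or.inr hc⟩
    rcases extract (A := fun x y => (x, y) ∈ E) E.card E u v rfl huv (fun e he => he)
      (fun x => by
        rw [hoD, hiD]
        have := (h3 x).2.1
        omega) with ⟨-, w, T, h4, h5, -⟩ | ⟨-, w, T, h4, h5, -⟩
    · exact hadj (.fwd h4 h5)
    · exact hadj (.bwd h4 h5)
  rcases hH.meet hwalk with h4 | ⟨j, k, h4, h5, h6, h7, h8⟩
  · exact absurd h4 huv
  obtain ⟨q, hq, hn⟩ := exists_nodup_wk h8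
  obtain ⟨L, h9, h10⟩ := hH.chain hq h4 h7 u h5
  refine ⟨L, h9, fun x => ?_⟩
  rw [h10, count_some]
  have hc : ∀ c, (j :: q).count (c, x) ≤ sOut F (α c) x - sIn F (α c) x := by
    intro c
    by_cases hm : (c, x) ∈ j :: q
    · have h11 : (j :: q).count (c, x) ≤ 1 := List.nodup_iff_count_le_one.mp hn _
      obtain ⟨h12, z, h13⟩ := meet_src hq h4 _ hm
      have h14 := le_sOut (f := α c) h13.1
      have h15 := h13.2
      have h16 : sIn F (α c) x = 0 := by
        by_contra h17
        obtain ⟨y, hy⟩ := exists_of_sIn (Nat.pos_of_ne_zero h17)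
        exact h12 y hy
      simp only at h14 h15
      omega
    · rw [List.count_eq_zero.mpr hm]
      exact Nat.zero_le _
  have h11 := hc false
  have h12 := hc true
  have h13 := (h3 x).2.2
  omega

end Pool.Agent.Helper7.ACP
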