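import Pool.Agent.Helper87.ACP.CompL

/-!
The table of the algorithm lists exactly the types of all placements, for any semantics of the
types that is compatible with the constant tables.
-/

set_option autoImplicit false

namespace Pool.Agent.Helper7.ACP

open Alg

/-- The arcs of `D` with an end in `X`. -/
def arcsOf (D : Dig) (X : Finset (Fin D.n)) : Finset (Fin D.n × Fin D.n) :=
  Finset.univ.filter (fun p => D.arc p.1 p.2 = true ∧ (p.1 ∈ X ∨ p.2 ∈ X))

/-- A piece: a set `F` of arcs of `D` whose ends are in the set `X` of inner vertices or in the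
slots; the inner vertices are not in the slots. -/
structure Ins (D : Dig) {K : ℕ} (β : Fin K → Option (Fin D.n)) (F : Finset (Fin D.n × Fin D.n))
    (X : Finset (Fin D.n)) : Prop where
  arc : ∀ p ∈ F, D.arc p.1 p.2 = true
  fst : ∀ p ∈ F, p.1 ∈ X ∨ ∃ i, β i = some p.1
  snd : ∀ p ∈ F, p.2 ∈ X ∨ ∃ i, β i = some p.2
  out : ∀ x ∈ X, ∀ i, β i ≠ some x

/-- A semantics of the types: every piece with multiplicities `m` has a type, and the types are
computed by the constant tables. -/
structure Sem (t : Tables) (D : Dig) where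
  /-- the type of a piece -/
  ty : (Fin t.K → Option (Fin D.n)) → Finset (Fin D.n × Fin D.n) → Finset (Fin D.n) →
    (Fin D.n → Fin 3) → ℕ
  lt : ∀ β F X m, Ins D β F X → ty β F X m < t.N
  zero : ∀ β m, ty β ∅ ∅ m = t.zero
  congr : ∀ β F X m m', Ins D β F X → (∀ x ∈ X, m x = m' x) → ty β F X m = ty β F X m'
  plus : ∀ β F X F' X' m, Ins D β F X → Ins D β F' X' → Disjoint F F' → Disjoint X X' →
    ty β (F ∪ F') (X ∪ X') m = plusC t (ty β F X m) (ty β F' X' m)
  arc : ∀ β b x y m, Codes b β → D.arc x y = true → (∃ i, β i = some x) → (∃ i, β i = some y) →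
    ty β {(x, y)} ∅ m = t.arc.getD (maskC t b x.1 y.1) 0
  forget : ∀ β i v F X m, v ∉ X → (∀ j, β j ≠ some v) →
    Ins D (Function.update β i (some v)) F X →
    (∀ w, β i = some w → ∀ p ∈ F, p.1 ≠ w ∧ p.2 ≠ w) →
    ty β F (insert v X) m = forgetC t i.1 (m v).1 (ty (Function.update β i (some v)) F X m)

variable {t : Tables} {D : Dig}

/-- The pair `(τ, s)` is the type and the number of agents of a placement on the component. -/
def IsFact (S : Sem t D) (β : Fin t.K → Option (Fin D.n)) (c : Fin D.n) (τ s : ℕ) : Prop :=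
  ∃ m : Fin D.n → Fin 3, S.ty β (arcsOf D (compF D β c)) (compF D β c) m = τ ∧
    ∑ x ∈ compF D β c, (m x).1 = s

/-! ### Sets of arcs -/

theorem mem_arcsOf (X : Finset (Fin D.n)) (p : Fin D.n × Fin D.n) :
    p ∈ arcsOf D X ↔ D.arc p.1 p.2 = true ∧ (p.1 ∈ X ∨ p.2 ∈ X) := by
  unfold arcsOf
  rw [Finset.mem_filter]
  simp

theorem arcsOf_union (X Y : Finset (Fin D.n)) : arcsOf D (X ∪ Y) = arcsOf D X ∪ arcsOf D Y := by
  ext p
  rw [Finset.mem_union, mem_arcsOf, mem_arcsOf, mem_arcsOf, Finset.mem_union, Finset.mem_union]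
  tauto

theorem arcsOf_empty : arcsOf D ∅ = ∅ := by
  ext p
  rw [mem_arcsOf]
  simp

theorem adj_of_arc {x y : Fin D.n} (h : D.arc x y = true) : (under D.A).Adj x y := by
  refine ⟨?_, Or.inl h⟩
  rintro rfl
  rw [D.loopless] at h
  exact absurd h (by decide)

/-! ### Components -/

section Comp

variable {V : Type} {G : SimpleGraph V} {K : ℕ} {β : Fin K → Option V}

theorem comp_symm {c x : V} (hc : ∀ i, β i ≠ some c) (hx : x ∈ Comp G β c) : c ∈ Comp G β x := by
  induction hx with
  | refl => exact self_mem_comp c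
  | @tail y z hy hyz ih =>
    exact Relation.ReflTransGen.head ⟨hyz.1.symm, comp_avoid hc y hy⟩ ih

theorem comp_trans {c x y : V} (hx : x ∈ Comp G β c) (hy : y ∈ Comp G β x) : y ∈ Comp G β c :=
  Relation.ReflTransGen.trans hx hy

theorem comp_eq {c x : V} (hc : ∀ i, β i ≠ some c) (hx : x ∈ Comp G β c) :
    Comp G β x = Comp G β c := by
  ext y
  exact ⟨fun h => comp_trans hx h, fun h => comp_trans (comp_symm hc hx) h⟩

end Comp

theorem compF_disjoint {K : ℕ} {β : Fin K → Option (Fin D.n)} {a b : Fin D.n}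
    (ha : ∀ i, β i ≠ some a) (h : a ∉ compF D β b) :
    Disjoint (compF D β a) (compF D β b) := by
  rw [Finset.disjoint_left]
  intro x hxa hxb
  rw [mem_compF] at hxa hxb h
  apply h
  exact comp_trans hxb (comp_symm ha hxa)

theorem compF_eq {K : ℕ} {β : Fin K → Option (Fin D.n)} {c x : Fin D.n}
    (hc : ∀ i, β i ≠ some c) (hx : x ∈ compF D β c) : compF D β x = compF D β c := by
  ext y
  rw [mem_compF, mem_compF, comp_eq hc ((mem_compF D β c x).mp hx)]

theorem arcsOf_compF_disjoint {K : ℕ} {β : Fin K → Option (Fin D.n)} {a b : Fin D.n}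
    (ha : ∀ i, β i ≠ some a) (hb : ∀ i, β i ≠ some b)
    (h : Disjoint (compF D β a) (compF D β b)) :
    Disjoint (arcsOf D (compF D β a)) (arcsOf D (compF D β b)) := by
  rw [Finset.disjoint_left] at h ⊢
  intro p hp hq
  rw [mem_arcsOf] at hp hq
  have hadj := adj_of_arc hp.1
  rcases hp.2 with h1 | h1 <;> rcases hq.2 with h2 | h2
  · exact h h1 h2
  · rw [mem_compF] at h1 h2
    have h3 := comp_closed h1 hadj (comp_avoid hb _ h2)
    exact h ((mem_compF _ _ _ _).mpr h3) ((mem_compF _ _ _ _).mpr h2)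
  · rw [mem_compF] at h1 h2
    have h3 := comp_closed h2 hadj (comp_avoid ha _ h1)
    exact h ((mem_compF _ _ _ _).mpr h1) ((mem_compF _ _ _ _).mpr h3)
  · exact h h1 h2

theorem ins_compF {K : ℕ} {β : Fin K → Option (Fin D.n)} {c : Fin D.n}
    (hc : ∀ i, β i ≠ some c) : Ins D β (arcsOf D (compF D β c)) (compF D β c) := by
  have key : ∀ x y, (under D.A).Adj x y → x ∈ compF D β c →
      y ∈ compF D β c ∨ ∃ i, β i = some y := by
    intro x y hxy hx
    by_cases h : ∃ i, β i = some y
    · exact Or.inr h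
    · left
      rw [mem_compF] at hx ⊢
      push Not at h
      exact comp_closed hx hxy h
  refine ⟨fun p hp => ((mem_arcsOf _ _).mp hp).1, fun p hp => ?_, fun p hp => ?_, fun x hx => ?_⟩
  · rw [mem_arcsOf] at hp
    rcases hp.2 with h | h
    · exact Or.inl h
    · exact key _ _ (adj_of_arc hp.1).symm h
  · rw [mem_arcsOf] at hp
    rcases hp.2 with h | h
    · exact key _ _ (adj_of_arc hp.1) h
    · exact Or.inl h
  · exact comp_avoid hc x ((mem_compF _ _ _ _).mp hx)

theorem Ins.union {K : ℕ} {β : Fin K → Option (Fin D.n)} {F F' : Finset (Fin D.n × Fin D.n)}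
    {X X' : Finset (Fin D.n)} (h : Ins D β F X) (h' : Ins D β F' X') :
    Ins D β (F ∪ F') (X ∪ X') := by
  refine ⟨fun p hp => ?_, fun p hp => ?_, fun p hp => ?_, fun x hx => ?_⟩
  · rcases Finset.mem_union.mp hp with hp | hp
    · exact h.arc p hp
    · exact h'.arc p hp
  · rcases Finset.mem_union.mp hp with hp | hp
    · exact (h.fst p hp).imp_left (Finset.mem_union_left _)
    · exact (h'.fst p hp).imp_left (Finset.mem_union_right _)
  · rcases Finset.mem_union.mp hp with hp | hp
    · exact (h.snd p hp).imp_left (Finset.mem_union_left _)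
    · exact (h'.snd p hp).imp_left (Finset.mem_union_right _)
  · rcases Finset.mem_union.mp hx with hx | hx
    · exact h.out x hx
    · exact h'.out x hx

/-! ### Combining the components -/

/-- The union of the components of the vertices in a list. -/
noncomputable def unionL (D : Dig) {K : ℕ} (β : Fin K → Option (Fin D.n)) (L : List (Fin D.n)) :
    Finset (Fin D.n) :=
  L.foldr (fun c U => compF D β c ∪ U) ∅

/-- The state of the combination: it can be combined with the components of the list `L`. -/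
structure Comb (D : Dig) {K : ℕ} (β : Fin K → Option (Fin D.n)) (F : Finset (Fin D.n × Fin D.n))
    (X : Finset (Fin D.n)) (L : List (Fin D.n)) : Prop where
  ins : Ins D β F X
  avoid : ∀ c ∈ L, ∀ i, β i ≠ some c
  disjX : ∀ c ∈ L, Disjoint X (compF D β c)
  disjF : ∀ c ∈ L, Disjoint F (arcsOf D (compF D β c))
  pair : L.Pairwise (fun a b => Disjoint (compF D β a) (compF D β b))

theorem Comb.tail {K : ℕ} {β : Fin K → Option (Fin D.n)} {F : Finset (Fin D.n × Fin D.n)}
    {X : Finset (Fin D.n)} {c : Fin D.n} {L : List (Fin D.n)} (h : Comb D β F X (c :: L)) :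
    Comb D β (F ∪ arcsOf D (compF D β c)) (X ∪ compF D β c) L := by
  have hc := h.avoid c (by simp)
  have hp := List.pairwise_cons.mp h.pair
  refine ⟨h.ins.union (ins_compF hc), fun a ha => h.avoid a (List.mem_cons_of_mem _ ha),
    fun a ha => ?_, fun a ha => ?_, hp.2⟩
  · exact Finset.disjoint_union_left.mpr ⟨h.disjX a (List.mem_cons_of_mem _ ha), hp.1 a ha⟩
  · exact Finset.disjoint_union_left.mpr ⟨h.disjF a (List.mem_cons_of_mem _ ha),
      arcsOf_compF_disjoint hc (h.avoid a (List.mem_cons_of_mem _ ha)) (hp.1 a ha)⟩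

theorem comb_cons (t : Tables) (n : ℕ) (Tb : List Fact) (b : List ℕ) (c : ℕ) (R : List ℕ)
    (P : List (ℕ × ℕ)) : comb t n Tb b (c :: R) P = comb t n Tb b R
      ((pairsL t n).filter (fun q => P.any (fun p => (List.range t.N).any (fun τ =>
        decide (p.2 ≤ q.2) && (lookup t Tb b c τ (q.2 - p.2) &&
          decide (plusC t p.1 τ = q.1)))))) := rfl

theorem comb_sound (S : Sem t D) {Tb : List Fact} {b : List ℕ} {β : Fin t.K → Option (Fin D.n)}
    (hT : ∀ (c : Fin D.n), (∀ i, β i ≠ some c) → ∀ τ s, lookup t Tb b c.1 τ s = true →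
      IsFact S β c τ s) (L : List (Fin D.n)) :
    ∀ (F : Finset (Fin D.n × Fin D.n)) (X : Finset (Fin D.n)) (P : List (ℕ × ℕ)),
      Comb D β F X L → (∀ p ∈ P, ∃ m, S.ty β F X m = p.1 ∧ ∑ x ∈ X, (m x).1 = p.2) →
      ∀ q ∈ comb t D.n Tb b (L.map (fun c => c.1)) P,
        ∃ m, S.ty β (F ∪ arcsOf D (unionL D β L)) (X ∪ unionL D β L) m = q.1 ∧
          ∑ x ∈ X ∪ unionL D β L, (m x).1 = q.2 := by
  induction L with
  | nil =>
    intro F X P _ hP q hq
    have h1 : unionL D β [] = ∅ := rfl
    rw [h1, arcsOf_empty, Finset.union_empty, Finset.union_empty]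
    exact hP q hq
  | cons c L ih =>
    intro F X P hC hP q hq
    rw [List.map_cons, comb_cons] at hq
    have h2 := ih (F ∪ arcsOf D (compF D β c)) (X ∪ compF D β c) _ hC.tail ?_ q hq
    · have h1 : unionL D β (c :: L) = compF D β c ∪ unionL D β L := rfl
      rw [h1, arcsOf_union, ← Finset.union_assoc, ← Finset.union_assoc]
      exact h2
    · intro q' hq'
      rw [List.mem_filter, List.any_eq_true] at hq'
      obtain ⟨-, p, hp, hq'⟩ := hq'
      rw [List.any_eq_true] at hq'
      obtain ⟨τ, -, hq'⟩ := hq'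
      rw [Bool.and_eq_true, Bool.and_eq_true, decide_eq_true_eq, decide_eq_true_eq] at hq'
      obtain ⟨hle, hlook, hplus⟩ := hq'
      have hca := hC.avoid c (by simp)
      obtain ⟨m1, hm1, hs1⟩ := hP p hp
      obtain ⟨m2, hm2, hs2⟩ := hT c hca τ _ hlook
      have hX := hC.disjX c (by simp)
      classical
      let m : Fin D.n → Fin 3 := fun x => if x ∈ X then m1 x else m2 x
      have e1 : ∀ x ∈ X, m x = m1 x := fun x hx => by simp [m, hx]
      have e2 : ∀ x ∈ compF D β c, m x = m2 x := by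
        intro x hx
        have : x ∉ X := fun h => Finset.disjoint_left.mp hX h hx
        simp [m, this]
      refine ⟨m, ?_, ?_⟩
      · rw [S.plus β F X _ _ m hC.ins (ins_compF hca) (hC.disjF c (by simp)) hX,
          S.congr β F X m m1 hC.ins e1, S.congr β _ _ m m2 (ins_compF hca) e2, hm1, hm2, hplus]
      · have s1 : ∑ x ∈ X, (m x).1 = ∑ x ∈ X, (m1 x).1 :=
          Finset.sum_congr rfl (fun x hx => by rw [e1 x hx])
        have s2 : ∑ x ∈ compF D β c, (m x).1 = ∑ x ∈ compF D β c, (m2 x).1 :=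
          Finset.sum_congr rfl (fun x hx => by rw [e2 x hx])
        rw [Finset.sum_union hX, s1, s2, hs1, hs2]
        omega

theorem sum_le (X : Finset (Fin D.n)) (m : Fin D.n → Fin 3) : ∑ x ∈ X, (m x).1 ≤ 2 * D.n := by
  calc ∑ x ∈ X, (m x).1 ≤ ∑ _x ∈ X, 2 := Finset.sum_le_sum (fun x _ => by have := (m x).2; omega)
    _ = X.card * 2 := by rw [Finset.sum_const, smul_eq_mul]
    _ ≤ D.n * 2 := by
      have := Finset.card_le_univ X
      rw [Fintype.card_fin] at this
      omega
    _ = 2 * D.n := by ring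

theorem mem_pairsL (n τ s : ℕ) (hτ : τ < t.N) (hs : s ≤ 2 * n) : (τ, s) ∈ pairsL t n := by
  show (τ, s) ∈ List.range t.N ×ˢ List.range (2 * n + 1)
  rw [List.mem_product, List.mem_range, List.mem_range]
  exact ⟨hτ, by omega⟩

theorem comb_complete (S : Sem t D) {Tb : List Fact} {b : List ℕ}
    {β : Fin t.K → Option (Fin D.n)} (m : Fin D.n → Fin 3) (L : List (Fin D.n)) :
    ∀ (F : Finset (Fin D.n × Fin D.n)) (X : Finset (Fin D.n)) (P : List (ℕ × ℕ)),
      Comb D β F X L → (∀ c ∈ L, lookup t Tb b c.1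
        (S.ty β (arcsOf D (compF D β c)) (compF D β c) m) (∑ x ∈ compF D β c, (m x).1) = true) →
      (S.ty β F X m, ∑ x ∈ X, (m x).1) ∈ P →
      (S.ty β (F ∪ arcsOf D (unionL D β L)) (X ∪ unionL D β L) m,
        ∑ x ∈ X ∪ unionL D β L, (m x).1) ∈ comb t D.n Tb b (L.map (fun c => c.1)) P := by
  induction L with
  | nil =>
    intro F X P _ _ hP
    have h1 : unionL D β [] = ∅ := rfl
    rw [h1, arcsOf_empty, Finset.union_empty, Finset.union_empty]
    exact hP
  | cons c L ih =>
    intro F X P hC hT hP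
    rw [List.map_cons, comb_cons]
    have h1 : unionL D β (c :: L) = compF D β c ∪ unionL D β L := rfl
    rw [h1, arcsOf_union, ← Finset.union_assoc, ← Finset.union_assoc]
    refine ih _ _ _ hC.tail (fun a ha => hT a (List.mem_cons_of_mem _ ha)) ?_
    have hX := hC.disjX c (by simp)
    have hca := hC.avoid c (by simp)
    rw [List.mem_filter]
    refine ⟨mem_pairsL _ _ _ (S.lt _ _ _ _ hC.tail.ins) (sum_le _ _), ?_⟩
    rw [List.any_eq_true]
    refine ⟨_, hP, ?_⟩
    rw [List.any_eq_true]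
    refine ⟨S.ty β (arcsOf D (compF D β c)) (compF D β c) m,
      List.mem_range.mpr (S.lt _ _ _ _ (ins_compF hca)), ?_⟩
    rw [Bool.and_eq_true, Bool.and_eq_true, decide_eq_true_eq, decide_eq_true_eq]
    rw [Finset.sum_union hX]
    refine ⟨Nat.le_add_right _ _, ?_, ?_⟩
    · rw [Nat.add_sub_cancel_left]
      exact hT c (by simp)
    · exact (S.plus β F X _ _ m hC.ins (ins_compF hca) (hC.disjF c (by simp)) hX).symm

/-! ### One step -/

/-- The situation of one step: the component of `c`, the vertex `v` goes to the slot `i`. -/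
structure Situ (D : Dig) {K : ℕ} (β : Fin K → Option (Fin D.n)) (c v : Fin D.n) (i : Fin K) :
    Prop where
  avoid : ∀ j, β j ≠ some c
  mem : v ∈ compF D β c
  free : ∀ w, β i = some w → ∀ x ∈ compF D β c, ¬ (under D.A).Adj x w

section Step

variable {K : ℕ} {β : Fin K → Option (Fin D.n)} {c v : Fin D.n} {i : Fin K}

theorem Situ.v_avoid (h : Situ D β c v i) : ∀ j, β j ≠ some v :=
  comp_avoid h.avoid v ((mem_compF _ _ _ _).mp h.mem)

/-- The new slots. -/
def nu (β : Fin K → Option (Fin D.n)) (v : Fin D.n) (i : Fin K) : Fin K → Option (Fin D.n) :=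
  Function.update β i (some v)

theorem nu_cases {w : Fin D.n} {j : Fin K} (h : nu β v i j = some w) : w = v ∨ β j = some w := by
  unfold nu at h
  by_cases hj : j = i
  · subst hj
    rw [Function.update_self, Option.some.injEq] at h
    exact Or.inl h.symm
  · rw [Function.update_of_ne hj] at h
    exact Or.inr h

theorem Situ.nu_avoid (h : Situ D β c v i) {x : Fin D.n} (hx : x ∈ compF D β c) (hxv : x ≠ v) :
    ∀ j, nu β v i j ≠ some x := by
  intro j hj
  rcases nu_cases hj with h1 | h1
  · exact hxv h1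
  · exact comp_avoid h.avoid x ((mem_compF _ _ _ _).mp hx) j h1

theorem nu_self : nu β v i i = some v := Function.update_self _ _ _

theorem Situ.sub (h : Situ D β c v i) {x : Fin D.n} (hx : x ∈ compF D β c) (hxv : x ≠ v) :
    ∀ y ∈ compF D (nu β v i) x, y ∈ compF D β c ∧ y ≠ v := by
  intro y hy
  have hav := h.nu_avoid hx hxv
  refine ⟨?_, ?_⟩
  · rw [mem_compF] at hy ⊢
    induction hy with
    | refl => exact (mem_compF _ _ _ _).mp hx
    | @tail y z hy hyz ih =>
      refine comp_closed ih hyz.1 ?_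
      intro j hj
      by_cases hji : j = i
      · subst hji
        exact h.free z hj y ((mem_compF _ _ _ _).mpr ih) hyz.1
      · exact hyz.2 j (by rw [nu, Function.update_of_ne hji]; exact hj)
  · rintro rfl
    exact comp_avoid hav y ((mem_compF _ _ _ _).mp hy) i nu_self

/-- The arcs between `v` and the vertices outside the component. -/
noncomputable def outArcs (D : Dig) {K : ℕ} (β : Fin K → Option (Fin D.n)) (c v : Fin D.n) :
    Finset (Fin D.n × Fin D.n) :=
  Finset.univ.filter (fun p => D.arc p.1 p.2 = true ∧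
    ((p.1 = v ∧ p.2 ∉ compF D β c) ∨ (p.2 = v ∧ p.1 ∉ compF D β c)))

theorem mem_outArcs (p : Fin D.n × Fin D.n) : p ∈ outArcs D β c v ↔ D.arc p.1 p.2 = true ∧
    ((p.1 = v ∧ p.2 ∉ compF D β c) ∨ (p.2 = v ∧ p.1 ∉ compF D β c)) := by
  unfold outArcs
  rw [Finset.mem_filter]
  simp

/-- A neighbour of `v` outside the component is in a slot that is kept. -/
theorem Situ.nb (h : Situ D β c v i) {y : Fin D.n} (hy : y ∉ compF D β c)
    (hvy : (under D.A).Adj v y) : ∃ j, j ≠ i ∧ β j = some y ∧ nu β v i j = some y := by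
  have h1 : ∃ j, β j = some y := by
    by_contra hcon
    push Not at hcon
    apply hy
    rw [mem_compF]
    exact comp_closed ((mem_compF _ _ _ _).mp h.mem) hvy hcon
  obtain ⟨j, hj⟩ := h1
  have hji : j ≠ i := by
    rintro rfl
    exact h.free y hj v h.mem hvy
  exact ⟨j, hji, hj, by rw [nu, Function.update_of_ne hji]; exact hj⟩

theorem Situ.ins_outArcs (h : Situ D β c v i) : Ins D (nu β v i) (outArcs D β c v) ∅ := by
  refine ⟨fun p hp => ((mem_outArcs p).mp hp).1, fun p hp => ?_, fun p hp => ?_,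
    fun x hx => by simp at hx⟩
  · right
    rw [mem_outArcs] at hp
    rcases hp.2 with ⟨h1, h2⟩ | ⟨h1, h2⟩
    · exact ⟨i, by rw [h1]; exact nu_self⟩
    · have hadj := (adj_of_arc hp.1).symm
      rw [h1] at hadj
      obtain ⟨j, -, -, hj⟩ := h.nb h2 hadj
      exact ⟨j, hj⟩
  · right
    rw [mem_outArcs] at hp
    rcases hp.2 with ⟨h1, h2⟩ | ⟨h1, h2⟩
    · have hadj := adj_of_arc hp.1
      rw [h1] at hadj
      obtain ⟨j, -, -, hj⟩ := h.nb h2 hadj
      exact ⟨j, hj⟩
    · exact ⟨i, by rw [h1]; exact nu_self⟩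

/-- The list `L` contains exactly one vertex of each component of the rest. -/
structure Reps (D : Dig) {K : ℕ} (β : Fin K → Option (Fin D.n)) (c v : Fin D.n) (i : Fin K)
    (L : List (Fin D.n)) : Prop where
  mem : ∀ x ∈ L, x ∈ compF D β c ∧ x ≠ v
  cover : ∀ y ∈ compF D β c, y ≠ v → ∃ x ∈ L, y ∈ compF D (nu β v i) x
  pair : L.Pairwise (fun a b => Disjoint (compF D (nu β v i) a) (compF D (nu β v i) b))

theorem mem_unionL (L : List (Fin D.n)) (y : Fin D.n) :
    y ∈ unionL D β L ↔ ∃ x ∈ L, y ∈ compF D β x := by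
  induction L with
  | nil => simp [unionL]
  | cons a L ih =>
    have h1 : unionL D β (a :: L) = compF D β a ∪ unionL D β L := rfl
    rw [h1, Finset.mem_union, ih]
    simp

theorem Situ.union_eq (h : Situ D β c v i) {L : List (Fin D.n)} (hL : Reps D β c v i L) :
    insert v (unionL D (nu β v i) L) = compF D β c := by
  ext y
  rw [Finset.mem_insert, mem_unionL]
  constructor
  · rintro (rfl | ⟨x, hx, hy⟩)
    · exact h.mem
    · exact (h.sub (hL.mem x hx).1 (hL.mem x hx).2 y hy).1
  · intro hy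
    by_cases hyv : y = v
    · exact Or.inl hyv
    · exact Or.inr (hL.cover y hy hyv)

theorem Situ.arcs_eq (h : Situ D β c v i) {L : List (Fin D.n)} (hL : Reps D β c v i L) :
    outArcs D β c v ∪ arcsOf D (unionL D (nu β v i) L) = arcsOf D (compF D β c) := by
  have hu := h.union_eq hL
  have hmem : ∀ y, y ∈ compF D β c ↔ y = v ∨ y ∈ unionL D (nu β v i) L := by
    intro y
    rw [← hu, Finset.mem_insert]
  ext p
  rw [Finset.mem_union, mem_outArcs, mem_arcsOf, mem_arcsOf, hmem p.1, hmem p.2]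
  by_cases hp : D.arc p.1 p.2 = true
  · have hne : p.1 ≠ p.2 := (adj_of_arc hp).1
    have hne' : ¬ (p.1 = v ∧ p.2 = v) := fun ⟨h1, h2⟩ => hne (h1.trans h2.symm)
    tauto
  · tauto

theorem Situ.comb (h : Situ D β c v i) {L : List (Fin D.n)} (hL : Reps D β c v i L) :
    Comb D (nu β v i) (outArcs D β c v) ∅ L := by
  refine ⟨h.ins_outArcs, fun x hx => h.nu_avoid (hL.mem x hx).1 (hL.mem x hx).2,
    fun x _ => Finset.disjoint_empty_left _, fun x hx => ?_, hL.pair⟩
  rw [Finset.disjoint_left]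
  intro p hp hq
  rw [mem_outArcs] at hp
  rw [mem_arcsOf] at hq
  have hs := h.sub (hL.mem x hx).1 (hL.mem x hx).2
  rcases hp.2 with ⟨h1, h2⟩ | ⟨h1, h2⟩ <;> rcases hq.2 with h3 | h3
  · exact (hs _ h3).2 h1
  · exact h2 (hs _ h3).1
  · exact h2 (hs _ h3).1
  · exact (hs _ h3).2 h1

theorem Situ.ins_rest (h : Situ D β c v i) {L : List (Fin D.n)} (hL : Reps D β c v i L) :
    Ins D (nu β v i) (arcsOf D (compF D β c)) (unionL D (nu β v i) L) := by
  rw [← h.arcs_eq hL]
  have key : ∀ (L : List (Fin D.n)), (∀ x ∈ L, ∀ j, nu β v i j ≠ some x) →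
      Ins D (nu β v i) (arcsOf D (unionL D (nu β v i) L)) (unionL D (nu β v i) L) := by
    intro L
    induction L with
    | nil =>
      intro _
      have h1 : unionL D (nu β v i) [] = ∅ := rfl
      rw [h1, arcsOf_empty]
      exact ⟨fun p hp => by simp at hp, fun p hp => by simp at hp, fun p hp => by simp at hp,
        fun x hx => by simp at hx⟩
    | cons a L ih =>
      intro hL
      have h1 : unionL D (nu β v i) (a :: L) = compF D (nu β v i) a ∪ unionL D (nu β v i) L := rfl
      rw [h1, arcsOf_union]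
      exact (ins_compF (hL a (by simp))).union (ih (fun x hx => hL x (List.mem_cons_of_mem _ hx)))
  have h2 := h.ins_outArcs.union (key L (fun x hx => h.nu_avoid (hL.mem x hx).1 (hL.mem x hx).2))
  rwa [Finset.empty_union] at h2

/-- No arc of the component ends at the old content of the slot. -/
theorem Situ.old (h : Situ D β c v i) : ∀ w, β i = some w →
    ∀ p ∈ arcsOf D (compF D β c), p.1 ≠ w ∧ p.2 ≠ w := by
  intro w hw p hp
  rw [mem_arcsOf] at hp
  have hadj := adj_of_arc hp.1
  have hwc : w ∉ compF D β c := fun h1 =>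
    comp_avoid h.avoid w ((mem_compF _ _ _ _).mp h1) i hw
  refine ⟨?_, ?_⟩
  · rintro rfl
    rcases hp.2 with h1 | h1
    · exact hwc h1
    · exact h.free _ hw _ h1 hadj.symm
  · rintro rfl
    rcases hp.2 with h1 | h1
    · exact h.free _ hw _ h1 hadj
    · exact hwc h1

theorem Situ.v_notMem (h : Situ D β c v i) {L : List (Fin D.n)} (hL : Reps D β c v i L) :
    v ∉ unionL D (nu β v i) L := by
  rw [mem_unionL]
  rintro ⟨x, hx, hv⟩
  exact (h.sub (hL.mem x hx).1 (hL.mem x hx).2 v hv).2 rfl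

end Step

/-- The type of the component from the type of the rest. -/
theorem Situ.ty_eq (S : Sem t D) {β : Fin t.K → Option (Fin D.n)} {c v : Fin D.n} {i : Fin t.K}
    (h : Situ D β c v i) {L : List (Fin D.n)} (hL : Reps D β c v i L) (m : Fin D.n → Fin 3) :
    S.ty β (arcsOf D (compF D β c)) (compF D β c) m = forgetC t i.1 (m v).1
      (S.ty (nu β v i) (arcsOf D (compF D β c)) (unionL D (nu β v i) L) m) := by
  have h1 := S.forget β i v (arcsOf D (compF D β c)) (unionL D (nu β v i) L) m (h.v_notMem hL)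
    h.v_avoid (h.ins_rest hL) h.old
  rw [h.union_eq hL] at h1
  exact h1

theorem Situ.sum_eq {K : ℕ} {β : Fin K → Option (Fin D.n)} {c v : Fin D.n} {i : Fin K}
    (h : Situ D β c v i) {L : List (Fin D.n)} (hL : Reps D β c v i L) (m : Fin D.n → Fin 3) :
    ∑ x ∈ compF D β c, (m x).1 = ∑ x ∈ unionL D (nu β v i) L, (m x).1 + (m v).1 := by
  rw [← h.union_eq hL, Finset.sum_insert (h.v_notMem hL), add_comm]

end Pool.Agent.Helper7.ACP
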